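import Pool.Agent.Helper80K9.TB.Par

/-!
# Measure preservation, density of trigonometric polynomials, elementary estimates
-/

set_option autoImplicit false

open scoped Nat ContDiff
open Real Filter Topology MeasureTheory

namespace Pool.Agent.Helper80K9.TB

instance : IsProbabilityMeasure (volume : Measure TT) := ⟨by simp⟩

theorem sk_mp (a : TT) (h : TT → TT) (hh : Measurable h) :
    MeasurePreserving (fun z : X2 => (![z 0 + a, z 1 + h (z 0)] : X2)) volume volume := by
  have e := volume_preserving_finTwoArrow TT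
  have h1 : MeasurePreserving (fun p : TT × TT => (p.1 + a, p.2 + h p.1))
      (volume : Measure (TT × TT)) volume := by
    refine MeasurePreserving.skew_product (g := fun u v => v + h u)
      (measurePreserving_add_right volume a) ?_ ?_
    · exact measurable_snd.add (hh.comp measurable_fst)
    · exact Eventually.of_forall fun u => (measurePreserving_add_right volume (h u)).map_eq
  have h2 := (e.symm.comp h1).comp e
  have e2 : (fun z : X2 => (![z 0 + a, z 1 + h (z 0)] : X2)) =
      ((MeasurableEquiv.finTwoArrow.symm : TT × TT → X2) ∘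
        (fun p : TT × TT => (p.1 + a, p.2 + h p.1))) ∘
        (MeasurableEquiv.finTwoArrow : X2 → TT × TT) := by
    funext z
    funext i
    fin_cases i <;> rfl
  rw [e2]
  exact h2

theorem Tm_mp (x : ℕ → ℝ) : MeasurePreserving (Tm x) (volume : Measure X2) volume :=
  sk_mp _ (fun u => ((Ph x u : ℝ) : TT))
    ((AddCircle.continuous_mk' (1 : ℝ)).comp (continuous_Ph x)).measurable

/-- trigonometric monomials -/
noncomputable abbrev eF (n : Fin 2 → ℤ) : C(X2, ℂ) := UnitAddTorus.mFourier n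

theorem eF_apply (n : Fin 2 → ℤ) (z : X2) : eF n z = fourier (n 0) (z 0) * fourier (n 1) (z 1) := by
  change ∏ i : Fin 2, fourier (n i) (z i) = _
  rw [Fin.prod_univ_two]

theorem norm_eF (n : Fin 2 → ℤ) (z : X2) : ‖eF n z‖ = 1 := by
  rw [eF_apply, norm_mul, fourier_apply, fourier_apply, Circle.norm_coe, Circle.norm_coe, one_mul]

/-- trigonometric polynomials -/
noncomputable abbrev Tg : Submodule ℂ C(X2, ℂ) := Submodule.span ℂ (Set.range (fun n => eF n))

theorem Tg_dense (G : C(X2, ℂ)) {ε : ℝ} (hε : 0 < ε) : ∃ P ∈ Tg, ‖G - P‖ < ε := by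
  have h : (Tg.topologicalClosure : Submodule ℂ C(X2, ℂ)) = ⊤ :=
    UnitAddTorus.span_mFourier_closure_eq_top
  have h2 : G ∈ closure (Tg : Set C(X2, ℂ)) := by
    have : G ∈ Tg.topologicalClosure := by rw [h]; trivial
    exact this
  obtain ⟨P, hP, hd⟩ := Metric.mem_closure_iff.1 h2 ε hε
  exact ⟨P, hP, by rwa [dist_eq_norm] at hd⟩

theorem cont_int (G : C(X2, ℂ)) : Integrable (fun z => G z) (volume : Measure X2) :=
  G.continuous.integrable_of_hasCompactSupport (HasCompactSupport.of_compactSpace _)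

theorem dense_trig (g : X2 → ℂ) (hg : Integrable g) {ε : ℝ} (hε : 0 < ε) :
    ∃ P ∈ Tg, ∫ z, ‖g z - P z‖ ≤ ε := by
  obtain ⟨G, hG, hGi⟩ := hg.exists_boundedContinuous_integral_sub_le (half_pos hε)
  obtain ⟨P, hP, hd⟩ := Tg_dense G.toContinuousMap (half_pos hε)
  refine ⟨P, hP, ?_⟩
  have h1 : ∀ z, ‖G z - P z‖ ≤ ε / 2 := fun z =>
    ((G.toContinuousMap - P).norm_coe_le_norm z).trans hd.le
  have hPi := cont_int P
  have i1 : Integrable (fun z => ‖g z - G z‖) (volume : Measure X2) := (hg.sub hGi).norm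
  have i2 : Integrable (fun z => ‖G z - P z‖) (volume : Measure X2) := (hGi.sub hPi).norm
  calc ∫ z, ‖g z - P z‖ ≤ ∫ z, (‖g z - G z‖ + ‖G z - P z‖) := by
        refine integral_mono (hg.sub hPi).norm (i1.add i2) fun z => ?_
        exact norm_sub_le_norm_sub_add_norm_sub _ _ _
    _ = (∫ z, ‖g z - G z‖) + ∫ z, ‖G z - P z‖ := integral_add i1 i2
    _ ≤ ε / 2 + ∫ _z : X2, ε / 2 := by
        refine add_le_add hG (integral_mono i2 (integrable_const _) h1)
    _ = ε := by simp

theorem fourier_real (k : ℤ) (t : ℝ) :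
    (fourier k (t : TT) : ℂ) = Complex.exp (Complex.I * ((2 * π * k * t : ℝ) : ℂ)) := by
  rw [fourier_coe_apply]
  congr 1
  push_cast
  ring

theorem fourier_lip (k : ℤ) (s t : ℝ) :
    ‖(fourier k (s : TT) : ℂ) - fourier k (t : TT)‖ ≤ 2 * π * |(k : ℝ)| * |s - t| := by
  rw [fourier_real, fourier_real]
  have e : Complex.exp (Complex.I * ((2 * π * k * s : ℝ) : ℂ)) -
      Complex.exp (Complex.I * ((2 * π * k * t : ℝ) : ℂ)) =
      Complex.exp (Complex.I * ((2 * π * k * t : ℝ) : ℂ)) *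
        (Complex.exp (Complex.I * ((2 * π * k * (s - t) : ℝ) : ℂ)) - 1) := by
    rw [mul_sub, ← Complex.exp_add, mul_one]
    congr 2
    push_cast
    ring
  rw [e, norm_mul, Complex.norm_exp_I_mul_ofReal, one_mul]
  refine Real.norm_exp_I_mul_ofReal_sub_one_le.trans (le_of_eq ?_)
  rw [norm_eq_abs, abs_mul, abs_mul, abs_mul, abs_two, abs_of_pos pi_pos]

theorem fourier_add_pt (k : ℤ) (s t : TT) :
    (fourier k (s + t) : ℂ) = fourier k s * fourier k t := by
  simp only [fourier_apply, smul_add, AddCircle.toCircle_add, Circle.coe_mul]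

/-- the function `F` on the circle, `F u = e(k cos (2 π u))` -/
noncomputable def Fk (k : ℤ) (u : TT) : ℂ := fourier k ((cs 1 u : ℝ) : TT)

theorem cs_nsmul (q : ℕ) (u : TT) : cs q u = cs 1 (q • u) := by
  unfold cs
  rw [fourier_apply, fourier_apply]
  simp

theorem continuous_cs (q : ℕ) : Continuous (cs q) := by
  unfold cs
  exact Complex.continuous_re.comp (fourier (q : ℤ)).continuous

theorem continuous_Fk (k : ℤ) : Continuous (Fk k) :=
  (fourier k).continuous.comp ((AddCircle.continuous_mk' (1 : ℝ)).comp (continuous_cs 1))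

theorem norm_Fk (k : ℤ) (u : TT) : ‖Fk k u‖ = 1 := by
  unfold Fk
  rw [fourier_apply, Circle.norm_coe]

/-- the mean of `F` is not `1` -/
theorem int_Fk {k : ℤ} (hk : k ≠ 0) : ∫ u, Fk k u ≠ 1 := by
  intro h
  have hi : Integrable (Fk k) (volume : Measure TT) :=
    (continuous_Fk k).integrable_of_hasCompactSupport (HasCompactSupport.of_compactSpace _)
  have h1 : ∫ u : TT, (1 - (Fk k u).re) = 0 := by
    have h0 : ∫ u : TT, (1 - (Fk k u).re) = (∫ _u : TT, (1 : ℝ)) - ∫ u : TT, (Fk k u).re :=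
      integral_sub (integrable_const _) hi.re
    have h2 : ∫ u : TT, (Fk k u).re = (∫ u, Fk k u).re := integral_re hi
    have h3 : ∫ u : TT, (Fk k u).re = 1 := by rw [h2, h, Complex.one_re]
    rw [h0, h3]
    simp
  have hnn : ∀ u : TT, 0 ≤ 1 - (Fk k u).re := fun u => by
    have := Complex.re_le_norm (Fk k u)
    rw [norm_Fk] at this
    linarith
  have hc : Continuous fun u : TT => 1 - (Fk k u).re :=
    continuous_const.sub (Complex.continuous_re.comp (continuous_Fk k))
  have h4 : (fun u : TT => 1 - (Fk k u).re) =ᵐ[volume] 0 :=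
    (integral_eq_zero_iff_of_nonneg hnn
      (hc.integrable_of_hasCompactSupport (HasCompactSupport.of_compactSpace _))).1 h1
  have h5 : (fun u : TT => 1 - (Fk k u).re) = 0 :=
    (Continuous.ae_eq_iff_eq volume hc continuous_const).1 h4
  have hk' : (0 : ℝ) < |(k : ℝ)| := abs_pos.2 (by exact_mod_cast hk)
  have hk1 : (1 : ℝ) ≤ |(k : ℝ)| := by exact_mod_cast Int.one_le_abs hk
  have h6 := congrFun h5 ((arccos (1 / (2 * k)) / (2 * π) : ℝ) : TT)
  have h7 : cs 1 ((arccos (1 / (2 * k)) / (2 * π) : ℝ) : TT) = 1 / (2 * k) := by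
    rw [cs_coe]
    have e : 2 * π * ((1 : ℕ) : ℝ) * (arccos (1 / (2 * k)) / (2 * π)) = arccos (1 / (2 * k)) := by
      push_cast; field_simp
    have hle : |(1 : ℝ) / (2 * k)| ≤ 1 := by
      rw [abs_div, abs_one, abs_mul, abs_two, div_le_one (by positivity)]
      linarith
    rw [e, cos_arccos (abs_le.1 hle).1 (abs_le.1 hle).2]
  simp only [Pi.zero_apply] at h6
  unfold Fk at h6
  rw [h7, fourier_real] at h6
  have e : 2 * π * (k : ℝ) * (1 / (2 * k)) = π := by
    have : (k : ℝ) ≠ 0 := by exact_mod_cast hk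
    field_simp
  rw [e, mul_comm, Complex.exp_pi_mul_I] at h6
  norm_num at h6

/-- `al` is irrational -/
theorem fourier_al {k : ℤ} (hk : k ≠ 0) : (fourier k ((al : ℝ) : TT) : ℂ) ≠ 1 := by
  intro h
  -- then all powers are one
  have h1 : ∀ N : ℕ, (fourier k ((rr N : ℝ) : TT) : ℂ) = 1 := by
    intro N
    obtain ⟨z, hz⟩ := Q_al N
    have e : ((rr N : ℝ) : TT) = (Q N) • ((al : ℝ) : TT) := by
      have e1 : rr N = (Q N) • al - z := by rw [nsmul_eq_mul, hz]; ring
      have e2 : ((z : ℝ) : TT) = 0 := (AddCircle.coe_eq_zero_iff (1 : ℝ)).2 ⟨z, by simp⟩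
      rw [e1, AddCircle.coe_sub, e2, sub_zero, AddCircle.coe_nsmul]
    rw [e, fourier_apply, smul_comm, AddCircle.toCircle_nsmul]
    rw [fourier_apply] at h
    rw [Circle.coe_pow, h, one_pow]
  have hk' : (0 : ℝ) < |(k : ℝ)| := abs_pos.2 (by exact_mod_cast hk)
  obtain ⟨N, hN⟩ : ∃ N : ℕ, 2 * |(k : ℝ)| < 2 ^ N := pow_unbounded_of_one_lt _ (by norm_num)
  have h2 := h1 N
  rw [fourier_real] at h2
  obtain ⟨n, hn⟩ := Complex.exp_eq_one_iff.1 h2
  have h3 : (2 * π * k * rr N : ℝ) = 2 * π * n := by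
    have h4 : Complex.I * ((2 * π * k * rr N : ℝ) : ℂ) = Complex.I * ((2 * π * n : ℝ) : ℂ) := by
      rw [hn]; push_cast; ring
    have h5 := mul_left_cancel₀ Complex.I_ne_zero h4
    exact_mod_cast h5
  have h4 : (k : ℝ) * rr N = n := by
    have : (2 * π) * ((k : ℝ) * rr N) = (2 * π) * n := by linarith
    exact mul_left_cancel₀ (by positivity) this
  have hr := rr_pos N
  have h5 : |(k : ℝ)| * rr N < 1 := by
    have h6 := rr_le N
    have h7 : (2 : ℝ) ^ N ≤ Q N := by
      have h1 := Q_ge N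
      have h2 : 2 ^ N ≤ Q N := by omega
      exact_mod_cast h2
    have h8 : (Q N : ℝ) * Q N ≤ Q (N + 1) := by exact_mod_cast Q_sq_le N
    have hq := Qr_pos N
    have hq1 := Qr_pos (N + 1)
    have h9 : 2 * (Q N : ℝ) / Q (N + 1) ≤ 2 / Q N := by
      rw [div_le_div_iff₀ hq1 hq]
      linarith
    calc |(k : ℝ)| * rr N ≤ |(k : ℝ)| * (2 / Q N) :=
          mul_le_mul_of_nonneg_left (h6.trans h9) hk'.le
      _ = 2 * |(k : ℝ)| / Q N := by ring
      _ < 1 := by rw [div_lt_one hq]; linarith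
  have h6 : |(n : ℝ)| < 1 := by
    rw [← h4, abs_mul, abs_of_pos hr]
    exact h5
  have h7 : n = 0 := by
    have : |n| < 1 := by exact_mod_cast h6
    exact Int.abs_lt_one_iff.1 this
  rw [h7, Int.cast_zero] at h4
  rcases mul_eq_zero.1 h4 with h8 | h8
  · exact hk (by exact_mod_cast h8)
  · exact hr.ne' h8

end Pool.Agent.Helper80K9.TB
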