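import Pool.Agent.Helper80K9.TB.Base

/-!
# The skew products are ergodic
-/

set_option autoImplicit false

open scoped Nat ContDiff
open Real Filter Topology MeasureTheory

namespace Pool.Agent.Helper80K9.TB

/-- `e(k cos (2 π Q_N z_0))` -/
noncomputable def FN (k : ℤ) (N : ℕ) (z : X2) : ℂ := Fk k (Q N • z 0)

theorem FN_eq (k : ℤ) (N : ℕ) (z : X2) : FN k N z = fourier k ((cs (Q N) (z 0) : ℝ) : TT) := by
  unfold FN Fk
  rw [cs_nsmul (Q N)]

theorem continuous_FN (k : ℤ) (N : ℕ) : Continuous (FN k N) :=
  (continuous_Fk k).comp (by fun_prop)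

theorem norm_FN (k : ℤ) (N : ℕ) (z : X2) : ‖FN k N z‖ = 1 := norm_Fk _ _

/-- the mean -/
noncomputable def cm (k : ℤ) : ℂ := ∫ u, Fk k u

theorem norm_cm_le (k : ℤ) : ‖cm k‖ ≤ 1 := by
  unfold cm
  refine (norm_integral_le_integral_norm _).trans ?_
  simp [norm_Fk]

theorem int_FN (k : ℤ) (N : ℕ) : ∫ z, FN k N z = cm k := by
  have h1 : MeasurePreserving (fun z : X2 => z 0) volume volume :=
    measurePreserving_eval (fun _ : Fin 2 => (volume : Measure TT)) 0
  have h2 : MeasurePreserving (fun u : TT => Q N • u) volume volume :=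
    (AddCircle.ergodic_nsmul (T := 1) (n := Q N) (by have := two_le_Q N; omega)).toMeasurePreserving
  have h3 := h2.comp h1
  have h4 := integral_map (μ := (volume : Measure X2)) (f := Fk k) h3.measurable.aemeasurable
    ((continuous_Fk k).aestronglyMeasurable)
  rw [h3.map_eq] at h4
  exact h4.symm

/-- a monomial times `FN - cm` has integral zero -/
theorem int_mono (k : ℤ) (n : Fin 2 → ℤ) :
    ∃ N0 : ℕ, ∀ N, N0 ≤ N → ∫ z, eF n z * (FN k N z - cm k) = 0 := by
  have hFi : ∀ N, Integrable (FN k N) (volume : Measure X2) := fun N =>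
    (continuous_FN k N).integrable_of_hasCompactSupport (HasCompactSupport.of_compactSpace _)
  -- translation trick
  have key : ∀ (N : ℕ) (s : X2), Q N • s 0 = 0 → eF n s ≠ 1 →
      ∫ z, eF n z * (FN k N z - cm k) = 0 := by
    intro N s hs hne
    have h1 : ∫ z : X2, eF n (z + s) * (FN k N (z + s) - cm k) =
        ∫ z, eF n z * (FN k N z - cm k) :=
      integral_add_right_eq_self (μ := (volume : Measure X2))
        (fun z => eF n z * (FN k N z - cm k)) s
    have h2 : ∀ z : X2, eF n (z + s) * (FN k N (z + s) - cm k) =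
        eF n s * (eF n z * (FN k N z - cm k)) := by
      intro z
      have e1 : FN k N (z + s) = FN k N z := by
        unfold FN
        rw [Pi.add_apply, smul_add, hs, add_zero]
      rw [e1, eF_apply, eF_apply, eF_apply, Pi.add_apply, Pi.add_apply, fourier_add_pt,
        fourier_add_pt]
      ring
    simp only [h2] at h1
    rw [integral_const_mul] at h1
    by_contra hcon
    exact hne (mul_right_cancel₀ hcon (by rw [h1, one_mul]))
  by_cases h1 : n 1 = 0
  · by_cases h0 : n 0 = 0
    · refine ⟨0, fun N _ => ?_⟩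
      have e : ∀ z : X2, eF n z * (FN k N z - cm k) = FN k N z - cm k := by
        intro z
        rw [eF_apply, h0, h1]
        simp
      simp only [e]
      rw [integral_sub (hFi N) (integrable_const _), int_FN]
      simp
    · obtain ⟨N0, hN0⟩ : ∃ N0 : ℕ, |(n 0 : ℝ)| < 2 ^ N0 :=
        pow_unbounded_of_one_lt _ (by norm_num)
      refine ⟨N0, fun N hN => key N ![((1 / Q N : ℝ) : TT), 0] ?_ ?_⟩
      · have hq := Qr_pos N
        show Q N • (((1 / Q N : ℝ)) : TT) = 0
        rw [← AddCircle.coe_nsmul, nsmul_eq_mul, mul_one_div_cancel hq.ne']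
        exact AddCircle.coe_period (1 : ℝ)
      · intro h
        rw [eF_apply, h1] at h
        simp only [Matrix.cons_val_zero, Matrix.cons_val_one, fourier_zero, mul_one] at h
        rw [fourier_real] at h
        obtain ⟨m, hm⟩ := Complex.exp_eq_one_iff.1 h
        have h3 : (2 * π * (n 0) * (1 / Q N) : ℝ) = 2 * π * m := by
          have h4 : Complex.I * ((2 * π * (n 0) * (1 / Q N) : ℝ) : ℂ) =
              Complex.I * ((2 * π * m : ℝ) : ℂ) := by
            rw [hm]; push_cast; ring
          have h5 := mul_left_cancel₀ Complex.I_ne_zero h4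
          exact_mod_cast h5
        have h4 : (n 0 : ℝ) * (1 / Q N) = m := by
          have : (2 * π) * ((n 0 : ℝ) * (1 / Q N)) = (2 * π) * m := by linarith
          exact mul_left_cancel₀ (by positivity) this
        have hq := Qr_pos N
        have h7 : (2 : ℝ) ^ N0 ≤ Q N := by
          have h1 := Q_ge N
          have h2 : 2 ^ N0 ≤ Q N := by
            calc 2 ^ N0 ≤ 2 ^ N := Nat.pow_le_pow_right (by norm_num) hN
              _ ≤ Q N := by omega
          exact_mod_cast h2
        have h6 : |(m : ℝ)| < 1 := by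
          rw [← h4, abs_mul, abs_of_pos (by positivity : (0 : ℝ) < 1 / Q N), mul_one_div,
            div_lt_one hq]
          linarith
        have h8 : m = 0 := Int.abs_lt_one_iff.1 (by exact_mod_cast h6)
        rw [h8, Int.cast_zero] at h4
        rcases mul_eq_zero.1 h4 with h9 | h9
        · exact h0 (by exact_mod_cast h9)
        · exact (by positivity : (0 : ℝ) < 1 / Q N).ne' h9
  · refine ⟨0, fun N _ => key N ![0, ((1 / (2 * n 1) : ℝ) : TT)] ?_ ?_⟩
    · simp
    · intro h
      rw [eF_apply] at h
      simp only [Matrix.cons_val_zero, Matrix.cons_val_one, Matrix.cons_val_fin_one] at h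
      rw [fourier_real] at h
      have e : 2 * π * (n 1 : ℝ) * (1 / (2 * n 1)) = π := by
        have : (n 1 : ℝ) ≠ 0 := by exact_mod_cast h1
        field_simp
      rw [e, mul_comm Complex.I, Complex.exp_pi_mul_I] at h
      simp at h
      norm_num at h

theorem int_Tg (k : ℤ) {P : C(X2, ℂ)} (hP : P ∈ Tg) :
    ∃ N0 : ℕ, ∀ N, N0 ≤ N → ∫ z, P z * (FN k N z - cm k) = 0 := by
  have hGi : ∀ (P : C(X2, ℂ)) N, Integrable (fun z => P z * (FN k N z - cm k))
      (volume : Measure X2) := fun P N =>
    ((P.continuous.mul ((continuous_FN k N).sub continuous_const))).integrable_of_hasCompactSupport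
      (HasCompactSupport.of_compactSpace _)
  induction hP using Submodule.span_induction with
  | mem P h =>
    obtain ⟨n, rfl⟩ := h
    exact int_mono k n
  | zero => exact ⟨0, fun N _ => by simp⟩
  | add P R _ _ h1 h2 =>
    obtain ⟨N1, h1⟩ := h1
    obtain ⟨N2, h2⟩ := h2
    refine ⟨max N1 N2, fun N hN => ?_⟩
    have e : ∀ z : X2, (P + R) z * (FN k N z - cm k) =
        P z * (FN k N z - cm k) + R z * (FN k N z - cm k) := fun z => by
      rw [ContinuousMap.add_apply]; ring
    simp only [e]
    rw [integral_add (hGi P N) (hGi R N), h1 N (le_of_max_le_left hN),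
      h2 N (le_of_max_le_right hN), add_zero]
  | smul a P _ h1 =>
    obtain ⟨N1, h1⟩ := h1
    refine ⟨N1, fun N hN => ?_⟩
    have e : ∀ z : X2, (a • P) z * (FN k N z - cm k) = a * (P z * (FN k N z - cm k)) := fun z => by
      rw [ContinuousMap.smul_apply, smul_eq_mul]; ring
    simp only [e]
    rw [integral_const_mul, h1 N hN, mul_zero]

theorem wl (k : ℤ) (g : X2 → ℂ) (hg : Integrable g) :
    Tendsto (fun N => ∫ z, g z * (FN k N z - cm k)) atTop (𝓝 0) := by
  rw [Metric.tendsto_atTop]
  intro ε hε
  obtain ⟨P, hP, hd⟩ := dense_trig g hg (by positivity : 0 < ε / 4)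
  obtain ⟨N0, hN0⟩ := int_Tg k hP
  refine ⟨N0, fun N hN => ?_⟩
  rw [dist_zero_right]
  have hb : ∀ z : X2, ‖FN k N z - cm k‖ ≤ 2 := fun z => by
    refine (norm_sub_le _ _).trans ?_
    rw [norm_FN]
    have := norm_cm_le k
    linarith
  have hm : AEStronglyMeasurable (fun z : X2 => FN k N z - cm k) volume :=
    ((continuous_FN k N).sub continuous_const).aestronglyMeasurable
  have i1 : Integrable (fun z => g z * (FN k N z - cm k)) (volume : Measure X2) :=
    hg.mul_bdd hm (Eventually.of_forall hb)
  have i2 : Integrable (fun z => P z * (FN k N z - cm k)) (volume : Measure X2) :=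
    (cont_int P).mul_bdd hm (Eventually.of_forall hb)
  have e : ∫ z, g z * (FN k N z - cm k) = ∫ z, (g z - P z) * (FN k N z - cm k) := by
    have e1 : ∀ z : X2, (g z - P z) * (FN k N z - cm k) =
        g z * (FN k N z - cm k) - P z * (FN k N z - cm k) := fun z => by ring
    simp only [e1]
    rw [integral_sub i1 i2, hN0 N hN, sub_zero]
  rw [e]
  refine (norm_integral_le_integral_norm _).trans_lt ?_
  calc ∫ z, ‖(g z - P z) * (FN k N z - cm k)‖ ≤ ∫ z, ‖g z - P z‖ * 2 := by
        refine integral_mono_of_nonneg (Eventually.of_forall fun z => norm_nonneg _)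
          ((hg.sub (cont_int P)).norm.mul_const 2) (Eventually.of_forall fun z => ?_)
        simp only [norm_mul]
        exact mul_le_mul_of_nonneg_left (hb z) (norm_nonneg _)
    _ = (∫ z, ‖g z - P z‖) * 2 := integral_mul_const _ _
    _ ≤ ε / 4 * 2 := by linarith
    _ < ε := by linarith

theorem eF_iter (x : ℕ → ℝ) (n : Fin 2 → ℤ) (m : ℕ) (z : X2) :
    eF n ((Tm x)^[m] z) = eF n z * (fourier (n 0) ((m * al : ℝ) : TT) *
      fourier (n 1) ((Sb x m (z 0) : ℝ) : TT)) := by
  rw [iter_Tm, eF_apply, eF_apply]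
  simp only [Matrix.cons_val_zero, Matrix.cons_val_one, Matrix.cons_val_fin_one]
  rw [fourier_add_pt, fourier_add_pt]
  ring

theorem continuous_Sb (x : ℕ → ℝ) (m : ℕ) : Continuous (Sb x m) := by
  unfold Sb
  exact continuous_finsetSum _ fun i _ => (continuous_Ph x).comp (continuous_id.add continuous_const)

/-- the factor at the odd times is close to `FN` -/
theorem factor_close (x : ℕ → ℝ) (n : Fin 2 → ℤ) (N : ℕ) (z : X2) :
    ‖(fourier (n 0) ((mm N * al : ℝ) : TT) : ℂ) * fourier (n 1) ((Sb x (mm N) (z 0) : ℝ) : TT) -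
      fourier (n 1) ((bb x N * cs (Q N) (z 0) : ℝ) : TT)‖ ≤
      (2 * π * |(n 0 : ℝ)| * 2 + 2 * π * |(n 1 : ℝ)| * 26) / Q N := by
  have h1 : ‖(fourier (n 0) ((mm N * al : ℝ) : TT) : ℂ) - 1‖ ≤ 2 * π * |(n 0 : ℝ)| * (2 / Q N) := by
    rw [mm_al]
    have h := fourier_lip (n 0) (mm N * tl N) 0
    have e0 : (fourier (n 0) ((0 : ℝ) : TT) : ℂ) = 1 := by
      rw [AddCircle.coe_zero]; exact fourier_eval_zero (n 0)
    rw [e0, sub_zero, abs_of_pos (mul_pos (mmr_pos N) (tl_pos N))] at h
    exact h.trans (mul_le_mul_of_nonneg_left (mm_tl_le N) (by positivity))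
  have h2 := (fourier_lip (n 1) (Sb x (mm N) (z 0)) (bb x N * cs (Q N) (z 0))).trans
    (mul_le_mul_of_nonneg_left (Sb_approx x N (z 0)) (by positivity))
  have e : (fourier (n 0) ((mm N * al : ℝ) : TT) : ℂ) *
      fourier (n 1) ((Sb x (mm N) (z 0) : ℝ) : TT) -
      fourier (n 1) ((bb x N * cs (Q N) (z 0) : ℝ) : TT) =
      ((fourier (n 0) ((mm N * al : ℝ) : TT) : ℂ) - 1) *
        fourier (n 1) ((Sb x (mm N) (z 0) : ℝ) : TT) +
      (fourier (n 1) ((Sb x (mm N) (z 0) : ℝ) : TT) -
        fourier (n 1) ((bb x N * cs (Q N) (z 0) : ℝ) : TT)) := by ring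
  rw [e]
  refine (norm_add_le _ _).trans ?_
  rw [norm_mul]
  have h3 : ‖(fourier (n 1) ((Sb x (mm N) (z 0) : ℝ) : TT) : ℂ)‖ = 1 := by
    rw [fourier_apply, Circle.norm_coe]
  rw [h3, mul_one]
  calc _ ≤ 2 * π * |(n 0 : ℝ)| * (2 / Q N) + 2 * π * |(n 1 : ℝ)| * (26 / Q N) := add_le_add h1 h2
    _ = _ := by ring

theorem tendsto_Q_inv (C : ℝ) : Tendsto (fun N : ℕ => C / (Q N : ℝ)) atTop (𝓝 0) := by
  have h1 : Tendsto (fun N : ℕ => (1 : ℝ) / Q N) atTop (𝓝 0) := summable_inv_Q.tendsto_atTop_zero
  have h2 := h1.const_mul C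
  rw [mul_zero] at h2
  refine h2.congr fun N => ?_
  ring

/-- The coefficients of an invariant bounded function vanish. -/
theorem coeff_zero (x : ℕ → ℝ) (g : X2 → ℂ) (hg : Integrable g) (B : ℝ) (hB : ∀ z, ‖g z‖ ≤ B)
    (hinv : ∀ z, g (Tm x z) = g z) (n : Fin 2 → ℤ) (hn : n ≠ 0) : ∫ z, g z * eF n z = 0 := by
  have hinv' : ∀ m z, g ((Tm x)^[m] z) = g z := by
    intro m
    induction m with
    | zero => intro z; rfl
    | succ m ih => intro z; rw [Function.iterate_succ_apply', hinv, ih]
  have hbd : ∀ n : Fin 2 → ℤ, Integrable (fun z => g z * eF n z) (volume : Measure X2) := fun n =>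
    hg.mul_bdd (c := 1) (eF n).continuous.aestronglyMeasurable
      (Eventually.of_forall fun z => (norm_eF n z).le)
  have hcoef : ∀ m : ℕ, ∫ z, g z * eF n z = ∫ z, g z * eF n z *
      (fourier (n 0) ((m * al : ℝ) : TT) * fourier (n 1) ((Sb x m (z 0) : ℝ) : TT)) := by
    intro m
    have hmp := (Tm_mp x).iterate m
    have h1 := integral_map (f := fun z => g z * eF n z) hmp.measurable.aemeasurable
      (by rw [hmp.map_eq]; exact (hbd n).aestronglyMeasurable)
    rw [hmp.map_eq] at h1
    rw [h1]
    refine integral_congr_ae (Eventually.of_forall fun z => ?_)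
    simp only
    rw [hinv', eF_iter]
    ring
  set a : ℂ := ∫ z, g z * eF n z with ha
  by_cases h1 : n 1 = 0
  · have h0 : n 0 ≠ 0 := by
      intro h0
      apply hn
      funext i
      fin_cases i
      · exact h0
      · exact h1
    have h2 := hcoef 1
    have e : ∀ z : X2, g z * eF n z * (fourier (n 0) (((1 : ℕ) * al : ℝ) : TT) *
        fourier (n 1) ((Sb x 1 (z 0) : ℝ) : TT)) = fourier (n 0) ((al : ℝ) : TT) *
          (g z * eF n z) := by
      intro z
      rw [h1, fourier_zero, mul_one, Nat.cast_one, one_mul]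
      ring
    simp only [e] at h2
    rw [integral_const_mul, ← ha] at h2
    by_contra hcon
    exact fourier_al h0 (mul_right_cancel₀ hcon (by rw [one_mul]; exact h2.symm))
  · -- the odd times
    have hB0 : 0 ≤ B := (norm_nonneg _).trans (hB 0)
    set C : ℝ := 2 * π * |(n 0 : ℝ)| * 2 + 2 * π * |(n 1 : ℝ)| * 26 with hC
    have key : ∀ j : ℕ, ‖a * (1 - cm (n 1))‖ ≤ B * C / Q (2 * j + 1) +
        ‖∫ z, (g z * eF n z) * (FN (n 1) (2 * j + 1) z - cm (n 1))‖ := by
      intro j
      set N := 2 * j + 1 with hN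
      have hmF : AEStronglyMeasurable (fun z : X2 => FN (n 1) N z) volume :=
        (continuous_FN (n 1) N).aestronglyMeasurable
      have i1 : Integrable (fun z => g z * eF n z * FN (n 1) N z) (volume : Measure X2) :=
        (hbd n).mul_bdd (c := 1) hmF (Eventually.of_forall fun z => (norm_FN _ _ z).le)
      have hmS : Continuous (fun z : X2 => (fourier (n 0) ((mm N * al : ℝ) : TT) : ℂ) *
          fourier (n 1) ((Sb x (mm N) (z 0) : ℝ) : TT)) :=
        continuous_const.mul ((fourier (n 1)).continuous.comp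
          ((AddCircle.continuous_mk' (1 : ℝ)).comp ((continuous_Sb x (mm N)).comp
            (continuous_apply 0))))
      have i2 : Integrable (fun z => g z * eF n z * ((fourier (n 0) ((mm N * al : ℝ) : TT) : ℂ) *
          fourier (n 1) ((Sb x (mm N) (z 0) : ℝ) : TT))) (volume : Measure X2) :=
        (hbd n).mul_bdd (c := 1) hmS.aestronglyMeasurable (Eventually.of_forall fun z => by
          rw [norm_mul, fourier_apply, fourier_apply, Circle.norm_coe, Circle.norm_coe, one_mul])
      have e1 : a * (1 - cm (n 1)) =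
          (∫ z, g z * eF n z * ((fourier (n 0) ((mm N * al : ℝ) : TT) *
            fourier (n 1) ((Sb x (mm N) (z 0) : ℝ) : TT)) - FN (n 1) N z)) +
          ∫ z, (g z * eF n z) * (FN (n 1) N z - cm (n 1)) := by
        have e2 : ∫ z, g z * eF n z * ((fourier (n 0) ((mm N * al : ℝ) : TT) *
            fourier (n 1) ((Sb x (mm N) (z 0) : ℝ) : TT)) - FN (n 1) N z) =
            a - ∫ z, g z * eF n z * FN (n 1) N z := by
          rw [hcoef (mm N), ← integral_sub i2 i1]
          refine integral_congr_ae (Eventually.of_forall fun z => ?_)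
          simp only
          ring
        have e3 : ∫ z, (g z * eF n z) * (FN (n 1) N z - cm (n 1)) =
            (∫ z, g z * eF n z * FN (n 1) N z) - a * cm (n 1) := by
          rw [ha, ← integral_mul_const, ← integral_sub i1 ((hbd n).mul_const _)]
          refine integral_congr_ae (Eventually.of_forall fun z => ?_)
          simp only
          ring
        rw [e2, e3]
        ring
      rw [e1]
      refine (norm_add_le _ _).trans (add_le_add ?_ le_rfl)
      refine (norm_integral_le_of_norm_le_const (C := B * C / Q N) (Eventually.of_forall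
        fun z => ?_)).trans ?_
      · rw [norm_mul, norm_mul, norm_eF, mul_one]
        have h3 := factor_close x n N z
        have hbo : bb x N = 1 := bb_odd x j
        rw [hbo, one_mul, ← FN_eq] at h3
        calc ‖g z‖ * ‖_‖ ≤ B * (C / Q N) := by
              refine mul_le_mul (hB z) h3 (norm_nonneg _) hB0
          _ = _ := by ring
      · simp
    have hodd : Tendsto (fun j : ℕ => 2 * j + 1) atTop atTop :=
      tendsto_atTop_mono (fun j => by simp only [id]; omega) tendsto_id
    have hlim : Tendsto (fun j : ℕ => B * C / Q (2 * j + 1) +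
        ‖∫ z, (g z * eF n z) * (FN (n 1) (2 * j + 1) z - cm (n 1))‖) atTop (𝓝 0) := by
      have l1 := (tendsto_Q_inv (B * C)).comp hodd
      have l2 := ((wl (n 1) _ (hbd n)).comp hodd).norm
      rw [norm_zero] at l2
      have := l1.add l2
      rw [add_zero] at this
      exact this
    have hle : ‖a * (1 - cm (n 1))‖ ≤ 0 := ge_of_tendsto' hlim key
    have h4 : a * (1 - cm (n 1)) = 0 := norm_le_zero_iff.1 hle
    rcases mul_eq_zero.1 h4 with h5 | h5
    · exact h5
    · exact absurd (sub_eq_zero.1 h5).symm (int_Fk h1)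

theorem Tm_ergodic (x : ℕ → ℝ) : Ergodic (Tm x) (volume : Measure X2) := by
  refine { toMeasurePreserving := Tm_mp x, aeconst_set := fun A hA hinv => ?_ }
  classical
  set c : ℂ := ((volume : Measure X2).real A : ℂ) with hc
  set g : X2 → ℂ := fun z => A.indicator (fun _ => (1 : ℂ)) z - c with hgdef
  have hci : Integrable (A.indicator fun _ => (1 : ℂ)) (volume : Measure X2) :=
    (integrable_const _).indicator hA
  have hg : Integrable g := hci.sub (integrable_const _)
  have hcn : ‖c‖ ≤ 1 := by
    rw [hc, Complex.norm_real, norm_eq_abs, abs_of_nonneg measureReal_nonneg]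
    exact measureReal_le_one
  have hB : ∀ z, ‖g z‖ ≤ 2 := by
    intro z
    refine (norm_sub_le _ _).trans ?_
    have : ‖A.indicator (fun _ => (1 : ℂ)) z‖ ≤ 1 := by
      by_cases hz : z ∈ A <;> simp [hz]
    linarith
  have hgi : ∀ z, g (Tm x z) = g z := by
    intro z
    have : Tm x z ∈ A ↔ z ∈ A := by
      rw [← Set.mem_preimage, hinv]
    simp only [hgdef, Set.indicator, this]
  have hzero : ∫ z, g z = 0 := by
    simp only [hgdef]
    rw [integral_sub hci (integrable_const _), integral_indicator hA]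
    simp [hc]
  have hall : ∀ P ∈ Tg, ∫ z, g z * P z = 0 := by
    intro P hP
    have hGi : ∀ P : C(X2, ℂ), Integrable (fun z => g z * P z) (volume : Measure X2) := fun P =>
      hg.mul_bdd (c := ‖P‖) P.continuous.aestronglyMeasurable
        (Eventually.of_forall fun z => P.norm_coe_le_norm z)
    induction hP using Submodule.span_induction with
    | mem P h =>
      obtain ⟨n, rfl⟩ := h
      by_cases hn : n = 0
      · subst hn
        have : ∀ z, g z * eF 0 z = g z := fun z => by
          rw [eF_apply]; simp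
        simp only [this]
        exact hzero
      · exact coeff_zero x g hg 2 hB hgi n hn
    | zero => simp
    | add P R _ _ h1 h2 =>
      have e : ∀ z : X2, g z * (P + R) z = g z * P z + g z * R z := fun z => by
        rw [ContinuousMap.add_apply]; ring
      simp only [e]
      rw [integral_add (hGi P) (hGi R), h1, h2, add_zero]
    | smul a P _ h1 =>
      have e : ∀ z : X2, g z * (a • P) z = a * (g z * P z) := fun z => by
        rw [ContinuousMap.smul_apply, smul_eq_mul]; ring
      simp only [e]
      rw [integral_const_mul, h1, mul_zero]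
  -- `g` is zero almost everywhere
  have hsq : ∫ z, ‖g z‖ ^ 2 ≤ 0 := by
    refine le_of_forall_pos_le_add fun ε hε => ?_
    have hcg : Integrable (fun z => (starRingEnd ℂ) (g z)) (volume : Measure X2) :=
      (Complex.conjCLE.toContinuousLinearMap.integrable_comp hg)
    obtain ⟨P, hP, hd⟩ := dense_trig _ hcg (by positivity : 0 < ε / 2)
    have i1 : Integrable (fun z => g z * P z) (volume : Measure X2) :=
      hg.mul_bdd (c := ‖P‖) P.continuous.aestronglyMeasurable
        (Eventually.of_forall fun z => P.norm_coe_le_norm z)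
    have i2 : Integrable (fun z => g z * (starRingEnd ℂ) (g z)) (volume : Measure X2) :=
      hg.mul_bdd (c := 2) hcg.aestronglyMeasurable
        (Eventually.of_forall fun z => by rw [RCLike.norm_conj]; exact hB z)
    have e1 : ((∫ z, ‖g z‖ ^ 2 : ℝ) : ℂ) = ∫ z, g z * ((starRingEnd ℂ) (g z) - P z) := by
      have e2 : ∫ z, g z * ((starRingEnd ℂ) (g z) - P z) =
          (∫ z, g z * (starRingEnd ℂ) (g z)) - ∫ z, g z * P z := by
        rw [← integral_sub i2 i1]
        refine integral_congr_ae (Eventually.of_forall fun z => ?_)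
        simp only
        ring
      have e3 : ((∫ z, ‖g z‖ ^ 2 : ℝ) : ℂ) = ∫ z, ((‖g z‖ ^ 2 : ℝ) : ℂ) := integral_ofReal.symm
      rw [e2, hall P hP, sub_zero, e3]
      refine integral_congr_ae (Eventually.of_forall fun z => ?_)
      simp only
      rw [Complex.mul_conj, Complex.normSq_eq_norm_sq]
    have h3 : ∫ z, ‖g z‖ ^ 2 = ‖((∫ z, ‖g z‖ ^ 2 : ℝ) : ℂ)‖ := by
      rw [Complex.norm_real, norm_eq_abs, abs_of_nonneg]
      exact integral_nonneg fun z => by positivity
    rw [h3, e1]
    refine (norm_integral_le_integral_norm _).trans ?_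
    calc ∫ z, ‖g z * ((starRingEnd ℂ) (g z) - P z)‖ ≤
        ∫ z, 2 * ‖(starRingEnd ℂ) (g z) - P z‖ := by
          refine integral_mono_of_nonneg (Eventually.of_forall fun z => norm_nonneg _)
            ((hcg.sub (cont_int P)).norm.const_mul 2) (Eventually.of_forall fun z => ?_)
          simp only [norm_mul]
          exact mul_le_mul_of_nonneg_right (hB z) (norm_nonneg _)
      _ = 2 * ∫ z, ‖(starRingEnd ℂ) (g z) - P z‖ := integral_const_mul _ _
      _ ≤ 0 + ε := by linarith
  have hsq0 : ∫ z, ‖g z‖ ^ 2 = 0 := le_antisymm hsq (integral_nonneg fun z => by positivity)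
  have hi2 : Integrable (fun z => ‖g z‖ ^ 2) (volume : Measure X2) := by
    have : Integrable (fun z => ‖g z‖ * ‖g z‖) (volume : Measure X2) :=
      hg.norm.mul_bdd (c := 2) hg.norm.aestronglyMeasurable
        (Eventually.of_forall fun z => by rw [norm_norm]; exact hB z)
    refine this.congr (Eventually.of_forall fun z => ?_)
    simp only
    ring
  have hae := (integral_eq_zero_iff_of_nonneg (fun z => by positivity) hi2).1 hsq0
  rw [eventuallyConst_set]
  by_cases hc1 : c = 1
  · left
    filter_upwards [hae] with z hz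
    by_contra hzA
    simp only [Pi.zero_apply, hgdef, Set.indicator_of_notMem hzA, hc1] at hz
    norm_num at hz
  · right
    filter_upwards [hae] with z hz hzA
    simp only [Pi.zero_apply, hgdef, Set.indicator_of_mem hzA] at hz
    have : (1 : ℂ) - c = 0 := by
      rw [← norm_eq_zero]
      exact pow_eq_zero_iff (two_ne_zero) |>.1 hz
    exact hc1 (sub_eq_zero.1 this).symm

end Pool.Agent.Helper80K9.TB
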