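import Pool.Agent.Helper80K9.TB.Erg

/-!
# Isomorphism of summable perturbations, and rigidity along generic sequences
-/

set_option autoImplicit false

open scoped ContDiff
open Real Filter Topology MeasureTheory

namespace Pool.Agent.Helper80K9.TB

/-- measure isomorphism, as in the frozen statement -/
def MIso (S T : X2 → X2) : Prop :=
  ∃ φ ψ : X2 → X2, MeasurePreserving φ volume volume ∧ MeasurePreserving ψ volume volume ∧
    ψ ∘ φ =ᵐ[volume] id ∧ φ ∘ ψ =ᵐ[volume] id ∧ φ ∘ S =ᵐ[volume] T ∘ φ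

theorem miso_of_summable {x y : ℕ → ℝ} (h : Summable fun n => |x n - y n|) :
    MIso (Tm x) (Tm y) := by
  obtain ⟨H, hH, hcob⟩ := exists_transfer h
  have hHm : Measurable fun u : TT => ((H u : ℝ) : TT) :=
    ((AddCircle.continuous_mk' (1 : ℝ)).comp hH).measurable
  refine ⟨fun z => ![z 0 + 0, z 1 + (-((H (z 0) : ℝ) : TT))],
    fun z => ![z 0 + 0, z 1 + ((H (z 0) : ℝ) : TT)],
    sk_mp 0 (fun u => -((H u : ℝ) : TT)) hHm.neg, sk_mp 0 _ hHm, ?_, ?_, ?_⟩
  · refine Eventually.of_forall fun z => ?_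
    funext i
    fin_cases i <;> simp
  · refine Eventually.of_forall fun z => ?_
    funext i
    fin_cases i <;> simp
  · refine Eventually.of_forall fun z => ?_
    funext i
    fin_cases i
    · simp [Tm]
    · show z 1 + ((Ph x (z 0) : ℝ) : TT) + (-((H (z 0 + (al : ℝ)) : ℝ) : TT)) =
        z 1 + (-((H (z 0) : ℝ) : TT)) + ((Ph y (z 0 + 0) : ℝ) : TT)
      have e : H (z 0 + (al : ℝ)) = H (z 0) + Ph x (z 0) - Ph y (z 0) := by
        have := hcob (z 0)
        linarith
      rw [e, add_zero, AddCircle.coe_sub, AddCircle.coe_add]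
      abel

section rigid

variable (x : ℕ → ℝ) (ν : ℕ → ℕ)

theorem Tm_iter_cont (m : ℕ) : Continuous ((Tm x)^[m]) := by
  have : Continuous (Tm x) := by
    refine continuous_pi fun i => ?_
    fin_cases i
    · exact (continuous_apply 0).add continuous_const
    · exact (continuous_apply 1).add ((AddCircle.continuous_mk' (1 : ℝ)).comp
        ((continuous_Ph x).comp (continuous_apply 0)))
  exact this.iterate m

theorem rigid_Tg (hν : Tendsto ν atTop atTop) (hb : Tendsto (fun k => bb x (ν k)) atTop (𝓝 0))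
    {P : C(X2, ℂ)} (hP : P ∈ Tg) :
    Tendsto (fun k => ∫ z, ‖P ((Tm x)^[mm (ν k)] z) - P z‖) atTop (𝓝 0) := by
  have hi : ∀ (P : C(X2, ℂ)) (m : ℕ),
      Integrable (fun z => ‖P ((Tm x)^[m] z) - P z‖) (volume : Measure X2) := fun P m =>
    (((P.continuous.comp (Tm_iter_cont x m)).sub P.continuous).norm).integrable_of_hasCompactSupport
      (HasCompactSupport.of_compactSpace _)
  induction hP using Submodule.span_induction with
  | mem P h =>
    obtain ⟨n, rfl⟩ := h
    set C : ℝ := 2 * π * |(n 0 : ℝ)| * 2 + 2 * π * |(n 1 : ℝ)| * 26 with hC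
    have hbd : ∀ k, ∫ z, ‖eF n ((Tm x)^[mm (ν k)] z) - eF n z‖ ≤
        C / Q (ν k) + 2 * π * |(n 1 : ℝ)| * |bb x (ν k)| := by
      intro k
      have hz : ∀ z : X2, ‖eF n ((Tm x)^[mm (ν k)] z) - eF n z‖ ≤
          C / Q (ν k) + 2 * π * |(n 1 : ℝ)| * |bb x (ν k)| := by
        intro z
        rw [eF_iter]
        have e : eF n z * ((fourier (n 0) ((mm (ν k) * al : ℝ) : TT) : ℂ) *
            fourier (n 1) ((Sb x (mm (ν k)) (z 0) : ℝ) : TT)) - eF n z =
            eF n z * (((fourier (n 0) ((mm (ν k) * al : ℝ) : TT) : ℂ) *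
            fourier (n 1) ((Sb x (mm (ν k)) (z 0) : ℝ) : TT) -
            fourier (n 1) ((bb x (ν k) * cs (Q (ν k)) (z 0) : ℝ) : TT)) +
            (fourier (n 1) ((bb x (ν k) * cs (Q (ν k)) (z 0) : ℝ) : TT) - 1)) := by ring
        rw [e, norm_mul, norm_eF, one_mul]
        refine (norm_add_le _ _).trans (add_le_add (factor_close x n (ν k) z) ?_)
        have h := fourier_lip (n 1) (bb x (ν k) * cs (Q (ν k)) (z 0)) 0
        have e0 : (fourier (n 1) ((0 : ℝ) : TT) : ℂ) = 1 := by
          rw [AddCircle.coe_zero]; exact fourier_eval_zero (n 1)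
        rw [e0, sub_zero, abs_mul] at h
        have hcs : |cs (Q (ν k)) (z 0)| ≤ 1 := by
          unfold cs
          refine (Complex.abs_re_le_norm _).trans ?_
          rw [fourier_apply, Circle.norm_coe]
        calc _ ≤ 2 * π * |(n 1 : ℝ)| * (|bb x (ν k)| * |cs (Q (ν k)) (z 0)|) := h
          _ ≤ 2 * π * |(n 1 : ℝ)| * (|bb x (ν k)| * 1) := by gcongr
          _ = _ := by ring
      calc ∫ z, ‖eF n ((Tm x)^[mm (ν k)] z) - eF n z‖ ≤
          ∫ _z : X2, (C / Q (ν k) + 2 * π * |(n 1 : ℝ)| * |bb x (ν k)|) :=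
            integral_mono (hi (eF n) _) (integrable_const _) hz
        _ = _ := by simp
    have l1 := (tendsto_Q_inv C).comp hν
    have l2 := (hb.abs).const_mul (2 * π * |(n 1 : ℝ)|)
    rw [abs_zero, mul_zero] at l2
    have l3 := l1.add l2
    rw [add_zero] at l3
    exact squeeze_zero (fun k => integral_nonneg fun z => norm_nonneg _) hbd l3
  | zero => simp
  | add P R _ _ h1 h2 =>
    have h3 := h1.add h2
    rw [add_zero] at h3
    refine squeeze_zero (fun k => integral_nonneg fun z => norm_nonneg _) (fun k => ?_) h3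
    rw [← integral_add (hi P _) (hi R _)]
    refine integral_mono (hi (P + R) _) ((hi P _).add (hi R _)) fun z => ?_
    simp only [ContinuousMap.add_apply]
    have e : P ((Tm x)^[mm (ν k)] z) + R ((Tm x)^[mm (ν k)] z) - (P z + R z) =
        (P ((Tm x)^[mm (ν k)] z) - P z) + (R ((Tm x)^[mm (ν k)] z) - R z) := by ring
    rw [e]
    exact norm_add_le _ _
  | smul a P _ h1 =>
    have h2 := h1.const_mul ‖a‖
    rw [mul_zero] at h2
    refine h2.congr fun k => ?_
    rw [← integral_const_mul]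
    refine integral_congr_ae (Eventually.of_forall fun z => ?_)
    simp only [ContinuousMap.smul_apply, smul_eq_mul]
    rw [← mul_sub, norm_mul]

theorem rigid_L1 (hν : Tendsto ν atTop atTop) (hb : Tendsto (fun k => bb x (ν k)) atTop (𝓝 0))
    (g : X2 → ℂ) (hg : Integrable g) :
    Tendsto (fun k => ∫ z, ‖g ((Tm x)^[mm (ν k)] z) - g z‖) atTop (𝓝 0) := by
  rw [Metric.tendsto_atTop]
  intro ε hε
  obtain ⟨P, hP, hd⟩ := dense_trig g hg (by positivity : 0 < ε / 4)
  obtain ⟨K, hK⟩ := Metric.tendsto_atTop.1 (rigid_Tg x ν hν hb hP) (ε / 4) (by positivity)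
  refine ⟨K, fun k hk => ?_⟩
  have h1 := hK k hk
  rw [dist_zero_right, norm_eq_abs, abs_of_nonneg (integral_nonneg fun z => norm_nonneg _)] at h1
  rw [dist_zero_right, norm_eq_abs, abs_of_nonneg (integral_nonneg fun z => norm_nonneg _)]
  set m := mm (ν k) with hm
  have hmp := (Tm_mp x).iterate m
  have i1 : Integrable (fun z => g z - P z) (volume : Measure X2) := hg.sub (cont_int P)
  have i2 : Integrable (fun z => g ((Tm x)^[m] z) - P ((Tm x)^[m] z)) (volume : Measure X2) :=
    hmp.integrable_comp_of_integrable i1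
  have i3 : Integrable (fun z => P ((Tm x)^[m] z) - P z) (volume : Measure X2) :=
    ((P.continuous.comp (Tm_iter_cont x m)).sub P.continuous).integrable_of_hasCompactSupport
      (HasCompactSupport.of_compactSpace _)
  have e1 : ∫ z, ‖g ((Tm x)^[m] z) - P ((Tm x)^[m] z)‖ = ∫ z, ‖g z - P z‖ := by
    have h := integral_map (μ := (volume : Measure X2)) (f := fun z => ‖g z - P z‖)
      hmp.measurable.aemeasurable (by rw [hmp.map_eq]; exact i1.norm.aestronglyMeasurable)
    rw [hmp.map_eq] at h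
    exact h.symm
  have i4 : Integrable (fun z => g ((Tm x)^[m] z) - g z) (volume : Measure X2) :=
    (hmp.integrable_comp_of_integrable hg).sub hg
  calc ∫ z, ‖g ((Tm x)^[m] z) - g z‖ ≤
      ∫ z, (‖g ((Tm x)^[m] z) - P ((Tm x)^[m] z)‖ + ‖P ((Tm x)^[m] z) - P z‖ + ‖g z - P z‖) := by
        refine integral_mono i4.norm ((i2.norm.add i3.norm).add i1.norm) fun z => ?_
        have e : g ((Tm x)^[m] z) - g z = (g ((Tm x)^[m] z) - P ((Tm x)^[m] z)) +
          (P ((Tm x)^[m] z) - P z) - (g z - P z) := by ring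
        simp only
        rw [e]
        exact (norm_sub_le _ _).trans (add_le_add (norm_add_le _ _) le_rfl)
    _ = (∫ z, ‖g ((Tm x)^[m] z) - P ((Tm x)^[m] z)‖) + (∫ z, ‖P ((Tm x)^[m] z) - P z‖) +
        ∫ z, ‖g z - P z‖ := by
        have j1 : Integrable (fun z => ‖g ((Tm x)^[m] z) - P ((Tm x)^[m] z)‖ +
            ‖P ((Tm x)^[m] z) - P z‖) (volume : Measure X2) := i2.norm.add i3.norm
        rw [integral_add j1 i1.norm, integral_add i2.norm i3.norm]
    _ < ε := by rw [e1]; linarith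

end rigid

/-- the generic pairs -/
def Gn (x y : ℕ → ℝ) : Prop :=
  ∀ N : ℕ, ∃ j, N ≤ j ∧ |bb x (2 * j)| ≤ 1 / (N + 1) ∧ |bb y (2 * j) - 1| ≤ 1 / (N + 1)

theorem not_miso {x y : ℕ → ℝ} (h : Gn x y) : ¬ MIso (Tm x) (Tm y) := by
  rintro ⟨φ, -, hφ, -, -, -, hcomm⟩
  choose j hj1 hj2 hj3 using h
  set ν : ℕ → ℕ := fun k => 2 * j k with hνd
  have hν : Tendsto ν atTop atTop :=
    tendsto_atTop_mono (fun k => by simp only [hνd, id]; have := hj1 k; omega) tendsto_id
  have h0 : Tendsto (fun N : ℕ => 1 / ((N : ℝ) + 1)) atTop (𝓝 0) :=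
    tendsto_one_div_add_atTop_nhds_zero_nat
  have hbx : Tendsto (fun k => bb x (ν k)) atTop (𝓝 0) :=
    squeeze_zero_norm (fun k => by rw [norm_eq_abs]; exact hj2 k) h0
  have hby : Tendsto (fun k => |bb y (ν k) - 1|) atTop (𝓝 0) :=
    squeeze_zero (fun k => abs_nonneg _) hj3 h0
  -- commutation with the iterates
  have hcm : ∀ m : ℕ, φ ∘ (Tm x)^[m] =ᵐ[volume] (Tm y)^[m] ∘ φ := by
    intro m
    induction m with
    | zero => exact EventuallyEq.rfl
    | succ m ih =>
      have h1 := ((Tm_mp x).iterate m).quasiMeasurePreserving.ae_eq_comp hcomm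
      filter_upwards [h1, ih] with z hz1 hz2
      simp only [Function.comp_apply] at hz1 hz2 ⊢
      rw [Function.iterate_succ_apply', hz1, hz2, Function.iterate_succ_apply']
  set G : X2 → ℂ := fun z => fourier 1 (φ z 1) with hG
  have hGm : Measurable G := (fourier (T := (1 : ℝ)) 1).continuous.measurable.comp
    ((measurable_pi_apply 1).comp hφ.measurable)
  have hGi : Integrable G (volume : Measure X2) :=
    Integrable.of_bound hGm.aestronglyMeasurable 1 (Eventually.of_forall fun z => by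
      simp only [hG]
      rw [fourier_apply, Circle.norm_coe])
  have hup := rigid_L1 x ν hν hbx G hGi
  have hlow : ∀ k, ‖cm 1 - 1‖ ≤ (∫ z, ‖G ((Tm x)^[mm (ν k)] z) - G z‖) +
      (52 * π / Q (ν k) + 2 * π * |bb y (ν k) - 1|) := by
    intro k
    set N := ν k with hN
    have hc1 : Continuous fun z : X2 => ‖(fourier 1 ((Sb y (mm N) (z 0) : ℝ) : TT) : ℂ) - 1‖ :=
      (((fourier 1).continuous.comp ((AddCircle.continuous_mk' (1 : ℝ)).comp
        ((continuous_Sb y (mm N)).comp (continuous_apply 0)))).sub continuous_const).norm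
    have i0 : Integrable (fun z : X2 => ‖(fourier 1 ((Sb y (mm N) (z 0) : ℝ) : TT) : ℂ) - 1‖)
        volume := hc1.integrable_of_hasCompactSupport (HasCompactSupport.of_compactSpace _)
    have e1 : ∫ z, ‖G ((Tm x)^[mm N] z) - G z‖ =
        ∫ z : X2, ‖(fourier 1 ((Sb y (mm N) (z 0) : ℝ) : TT) : ℂ) - 1‖ := by
      have h1 : ∫ z, ‖G ((Tm x)^[mm N] z) - G z‖ =
          ∫ z, ‖(fourier 1 ((Sb y (mm N) (φ z 0) : ℝ) : TT) : ℂ) - 1‖ := by
        refine integral_congr_ae ?_
        filter_upwards [hcm (mm N)] with z hz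
        simp only [Function.comp_apply] at hz
        simp only [hG]
        rw [hz, iter_Tm]
        simp only [Matrix.cons_val_one, Matrix.cons_val_fin_one]
        rw [fourier_add_pt]
        have e : (fourier 1 (φ z 1) : ℂ) * fourier 1 ((Sb y (mm N) (φ z 0) : ℝ) : TT) -
            fourier 1 (φ z 1) = fourier 1 (φ z 1) *
              (fourier 1 ((Sb y (mm N) (φ z 0) : ℝ) : TT) - 1) := by ring
        rw [e, norm_mul]
        have h3 : ‖(fourier 1 (φ z 1) : ℂ)‖ = 1 := by
          rw [fourier_apply, Circle.norm_coe]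
        rw [h3, one_mul]
      rw [h1]
      have h2 := integral_map (μ := (volume : Measure X2))
        (f := fun z : X2 => ‖(fourier 1 ((Sb y (mm N) (z 0) : ℝ) : TT) : ℂ) - 1‖)
        hφ.measurable.aemeasurable hc1.aestronglyMeasurable
      rw [hφ.map_eq] at h2
      exact h2.symm
    rw [e1]
    have hFi : Integrable (FN 1 N) (volume : Measure X2) :=
      (continuous_FN 1 N).integrable_of_hasCompactSupport (HasCompactSupport.of_compactSpace _)
    have e2 : cm 1 - 1 = ∫ z : X2, (FN 1 N z - 1) := by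
      rw [integral_sub hFi (integrable_const _), int_FN]
      simp
    rw [e2]
    refine (norm_integral_le_integral_norm _).trans ?_
    have hz : ∀ z : X2, ‖FN 1 N z - 1‖ ≤ ‖(fourier 1 ((Sb y (mm N) (z 0) : ℝ) : TT) : ℂ) - 1‖ +
        (52 * π / Q N + 2 * π * |bb y N - 1|) := by
      intro z
      rw [FN_eq]
      have h1 := fourier_lip 1 (cs (Q N) (z 0)) (Sb y (mm N) (z 0))
      have h2 : |cs (Q N) (z 0) - Sb y (mm N) (z 0)| ≤ 26 / Q N + |bb y N - 1| := by
        have hs := Sb_approx y N (z 0)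
        have hcs : |cs (Q N) (z 0)| ≤ 1 := by
          unfold cs
          refine (Complex.abs_re_le_norm _).trans ?_
          rw [fourier_apply, Circle.norm_coe]
        have e : cs (Q N) (z 0) - Sb y (mm N) (z 0) =
            -(Sb y (mm N) (z 0) - bb y N * cs (Q N) (z 0)) - (bb y N - 1) * cs (Q N) (z 0) := by
          ring
        rw [e]
        refine (abs_sub _ _).trans ?_
        rw [abs_neg, abs_mul]
        have : |bb y N - 1| * |cs (Q N) (z 0)| ≤ |bb y N - 1| * 1 :=
          mul_le_mul_of_nonneg_left hcs (abs_nonneg _)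
        linarith
      have e3 : (fourier 1 ((cs (Q N) (z 0) : ℝ) : TT) : ℂ) - 1 =
          (fourier 1 ((Sb y (mm N) (z 0) : ℝ) : TT) - 1) +
          (fourier 1 ((cs (Q N) (z 0) : ℝ) : TT) - fourier 1 ((Sb y (mm N) (z 0) : ℝ) : TT)) := by
        ring
      rw [e3]
      refine (norm_add_le _ _).trans (add_le_add le_rfl (h1.trans ?_))
      rw [Int.cast_one, abs_one, mul_one]
      calc 2 * π * |cs (Q N) (z 0) - Sb y (mm N) (z 0)| ≤ 2 * π * (26 / Q N + |bb y N - 1|) := by
            gcongr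
        _ = _ := by ring
    calc ∫ z : X2, ‖FN 1 N z - 1‖ ≤
        ∫ z : X2, (‖(fourier 1 ((Sb y (mm N) (z 0) : ℝ) : TT) : ℂ) - 1‖ +
          (52 * π / Q N + 2 * π * |bb y N - 1|)) :=
          integral_mono (hFi.sub (integrable_const _)).norm (i0.add (integrable_const _)) hz
      _ = _ := by
          rw [integral_add i0 (integrable_const _)]
          simp
  have hlim : Tendsto (fun k => (∫ z, ‖G ((Tm x)^[mm (ν k)] z) - G z‖) +
      (52 * π / Q (ν k) + 2 * π * |bb y (ν k) - 1|)) atTop (𝓝 0) := by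
    have l1 := (tendsto_Q_inv (52 * π)).comp hν
    have l2 := hby.const_mul (2 * π)
    rw [mul_zero] at l2
    have l3 := hup.add (l1.add l2)
    rw [add_zero, add_zero] at l3
    exact l3
  have hle : ‖cm 1 - 1‖ ≤ 0 := ge_of_tendsto' hlim hlow
  exact int_Fk one_ne_zero (sub_eq_zero.1 (norm_le_zero_iff.1 hle))

/-! ### generic pairs exist -/

theorem continuous_bb (n : ℕ) : Continuous fun x : ℕ → ℝ => bb x n := by
  unfold bb
  by_cases h : n % 2 = 1
  · simp only [if_pos h]; exact continuous_const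
  · simp only [if_neg h]
    exact continuous_sin.comp (continuous_const.mul (continuous_apply _))

theorem exists_gn {C : Set (ℕ → ℝ)} (hC : C ∈ residual (ℕ → ℝ)) :
    ∃ x ∈ C, ∃ y ∈ C, Gn x y := by
  set Gs : ℕ → Set ((ℕ → ℝ) × (ℕ → ℝ)) := fun N =>
    {p | ∃ j, N ≤ j ∧ |bb p.1 (2 * j)| < 1 / ((N : ℝ) + 1) ∧
      |bb p.2 (2 * j) - 1| < 1 / ((N : ℝ) + 1)} with hGs
  have hopen : ∀ N, IsOpen (Gs N) := by
    intro N
    have h : Gs N = ⋃ j ∈ {j | N ≤ j}, ({p | |bb p.1 (2 * j)| < 1 / ((N : ℝ) + 1)} ∩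
        {p | |bb p.2 (2 * j) - 1| < 1 / ((N : ℝ) + 1)}) := by
      ext p
      simp only [hGs, Set.mem_ofPred_eq, Set.mem_iUnion, Set.mem_inter_iff, exists_prop]
    rw [h]
    refine isOpen_biUnion fun j _ => IsOpen.inter ?_ ?_
    · exact isOpen_lt (((continuous_bb _).comp continuous_fst).abs) continuous_const
    · exact isOpen_lt ((((continuous_bb _).comp continuous_snd).sub continuous_const).abs)
        continuous_const
  have htu : ∀ (x c : ℕ → ℝ), Tendsto (fun k => Function.update x k (c k)) atTop (𝓝 x) := by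
    intro x c
    rw [tendsto_pi_nhds]
    intro i
    refine tendsto_const_nhds.congr' ?_
    filter_upwards [eventually_gt_atTop i] with k hk
    rw [Function.update_of_ne hk.ne]
  have hdense : ∀ N, Dense (Gs N) := by
    rintro N ⟨x, y⟩
    have h := (htu x fun _ => 0).prodMk_nhds (htu y fun k => π / 2 / sn (2 * k))
    refine mem_closure_of_tendsto h ?_
    filter_upwards [eventually_ge_atTop N] with k hk
    have hN : (0 : ℝ) < 1 / ((N : ℝ) + 1) := by positivity
    refine ⟨k, hk, ?_, ?_⟩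
    · simp only [bb_even, Function.update_self, mul_zero, sin_zero, abs_zero]
      exact hN
    · simp only [bb_even, Function.update_self]
      rw [mul_div_cancel₀ _ (sn_pos _).ne', sin_pi_div_two, sub_self, abs_zero]
      exact hN
  have h1 : (Prod.fst : (ℕ → ℝ) × (ℕ → ℝ) → (ℕ → ℝ)) ⁻¹' C ∈ residual ((ℕ → ℝ) × (ℕ → ℝ)) :=
    tendsto_residual_of_isOpenMap continuous_fst isOpenMap_fst hC
  have h2 : (Prod.snd : (ℕ → ℝ) × (ℕ → ℝ) → (ℕ → ℝ)) ⁻¹' C ∈ residual ((ℕ → ℝ) × (ℕ → ℝ)) :=
    tendsto_residual_of_isOpenMap continuous_snd isOpenMap_snd hC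
  have h3 : (⋂ N, Gs N) ∈ residual ((ℕ → ℝ) × (ℕ → ℝ)) :=
    countable_iInter_mem.2 fun N => residual_of_dense_open (hopen N) (hdense N)
  have h4 := dense_of_mem_residual (inter_mem (inter_mem h1 h2) h3)
  obtain ⟨p, ⟨⟨hp1, hp2⟩, hp3⟩⟩ := h4.nonempty
  refine ⟨p.1, hp1, p.2, hp2, fun N => ?_⟩
  obtain ⟨k, hk, ha, hb⟩ := Set.mem_iInter.1 hp3 N
  exact ⟨k, hk, ha.le, hb.le⟩

end Pool.Agent.Helper80K9.TB
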