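import Pool.Agent.Helper80K9.TB.Phi

/-!
# The parametrised cocycles on the circle and the skew products on the torus
-/

set_option autoImplicit false

open scoped Nat ContDiff
open Real Filter Topology MeasureTheory

namespace Pool.Agent.Helper80K9.TB

/-- the circle -/
abbrev TT : Type := AddCircle (1 : ℝ)

/-- the amplitudes -/
noncomputable def bb (x : ℕ → ℝ) (n : ℕ) : ℝ := if n % 2 = 1 then 1 else sin (sn n * x (n / 2))

theorem abs_bb_le (x : ℕ → ℝ) (n : ℕ) : |bb x n| ≤ 1 := by
  unfold bb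
  split_ifs
  · simp
  · exact abs_sin_le_one _

theorem bb_even (x : ℕ → ℝ) (j : ℕ) : bb x (2 * j) = sin (sn (2 * j) * x j) := by
  unfold bb
  rw [if_neg (by omega), Nat.mul_div_cancel_left _ (by norm_num)]

theorem bb_odd (x : ℕ → ℝ) (j : ℕ) : bb x (2 * j + 1) = 1 := by
  unfold bb
  rw [if_pos (by omega)]

theorem phi_periodic (b : ℕ → ℝ) : Function.Periodic (phi b) 1 := by
  intro u
  have := phi_int b u 1
  simpa using this

/-- the cocycle on the circle -/
noncomputable def Ph (x : ℕ → ℝ) : TT → ℝ := (phi_periodic (bb x)).lift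

theorem Ph_coe (x : ℕ → ℝ) (u : ℝ) : Ph x (u : TT) = phi (bb x) u := rfl

theorem continuous_lift {f : ℝ → ℝ} (hf : Continuous f) (hp : Function.Periodic f 1) :
    Continuous (hp.lift : TT → ℝ) := by
  have : Continuous ((hp.lift : TT → ℝ) ∘ ((↑) : ℝ → TT)) := hf
  exact continuous_coinduced_dom.2 this

theorem continuous_Ph (x : ℕ → ℝ) : Continuous (Ph x) :=
  continuous_lift (contDiff_phi (abs_bb_le x)).continuous _

theorem continuous_par (z : TT) : Continuous fun x : ℕ → ℝ => Ph x z := by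
  induction z using QuotientAddGroup.induction_on with
  | H u =>
    change Continuous fun x : ℕ → ℝ => phi (bb x) u
    unfold phi
    refine continuous_tsum ?_ summable_half ?_
    · intro n
      unfold bb
      by_cases h : n % 2 = 1
      · simp only [if_pos h]; exact continuous_const
      · simp only [if_neg h]
        exact (((continuous_sin.comp (continuous_const.mul (continuous_apply _))).div_const
          _).mul continuous_const)
    · intro n x
      rw [norm_eq_abs]
      exact term_le (abs_bb_le x) n u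

theorem diff_le (x y : ℕ → ℝ) (j : ℕ) :
    |bb x (2 * j) - bb y (2 * j)| ≤ sn (2 * j) * |x j - y j| := by
  rw [bb_even, bb_even]
  refine (abs_sin_sub_sin_le _ _).trans ?_
  rw [← mul_sub, abs_mul, abs_of_pos (sn_pos _)]

/-- Summable perturbations are coboundaries. -/
theorem exists_transfer {x y : ℕ → ℝ} (h : Summable fun n => |x n - y n|) :
    ∃ H : TT → ℝ, Continuous H ∧ ∀ z : TT, H (z + (al : ℝ)) - H z = Ph x z - Ph y z := by
  set c : ℕ → ℝ := fun n => bb x n - bb y n with hc
  set d : ℕ → ℝ := fun n => if n % 2 = 1 then 0 else |x (n / 2) - y (n / 2)| with hd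
  have hsd : Summable d := by
    have h0 : Summable fun k => d (2 * k) := by
      refine h.congr fun k => ?_
      simp only [hd]
      rw [if_neg (by omega), Nat.mul_div_cancel_left _ (by norm_num)]
    have h1 : Summable fun k => d (2 * k + 1) := by
      refine summable_zero.congr fun k => ?_
      simp only [hd]
      rw [if_pos (by omega)]
    exact (h0.hasSum.even_add_odd h1.hasSum).summable
  have hbd : ∀ n u, ‖c n / mm n * Hn n u‖ ≤ d n := by
    intro n u
    rw [norm_eq_abs, abs_mul, abs_div, abs_of_pos (mmr_pos n)]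
    have hm : (1 : ℝ) ≤ mm n := by exact_mod_cast mm_pos n
    have hs := sn_pos n
    have hH := abs_Hn_le n u
    rcases Nat.mod_two_eq_zero_or_one n with hn | hn
    · obtain ⟨j, rfl⟩ : ∃ j, n = 2 * j := ⟨n / 2, by omega⟩
      have h1 := diff_le x y j
      simp only [hd]
      rw [if_neg (by omega), Nat.mul_div_cancel_left _ (by norm_num)]
      have h2 : |c (2 * j)| / mm (2 * j) ≤ sn (2 * j) * |x j - y j| := by
        rw [div_le_iff₀ (mmr_pos _)]
        have : 0 ≤ sn (2 * j) * |x j - y j| := by positivity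
        nlinarith
      calc |c (2 * j)| / mm (2 * j) * |Hn (2 * j) u|
          ≤ sn (2 * j) * |x j - y j| * (1 / (2 * sn (2 * j))) := by gcongr
        _ = |x j - y j| / 2 := by field_simp
        _ ≤ |x j - y j| := by have := abs_nonneg (x j - y j); linarith
    · obtain ⟨j, rfl⟩ : ∃ j, n = 2 * j + 1 := ⟨n / 2, by omega⟩
      have h1 : c (2 * j + 1) = 0 := by simp only [hc]; rw [bb_odd, bb_odd, sub_self]
      rw [h1]
      simp only [hd]
      rw [if_pos (by omega)]
      simp
  have hsum : ∀ u, Summable fun n => c n / mm n * Hn n u := fun u =>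
    Summable.of_norm_bounded hsd (fun n => hbd n u)
  set K : ℝ → ℝ := fun u => ∑' n, c n / mm n * Hn n u with hK
  have hKc : Continuous K := by
    refine continuous_tsum ?_ hsd hbd
    intro n
    unfold Hn
    fun_prop
  have hKp : Function.Periodic K 1 := by
    intro u
    simp only [hK]
    refine tsum_congr fun n => ?_
    have := Hn_int n u 1
    rw [Int.cast_one] at this
    rw [this]
  refine ⟨hKp.lift, continuous_lift hKc hKp, fun z => ?_⟩
  induction z using QuotientAddGroup.induction_on with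
  | H u =>
    change K (u + al) - K u = phi (bb x) u - phi (bb y) u
    have h1 := (hsum (u + al)).hasSum.sub (hsum u).hasSum
    have h2 := (summable_phi (abs_bb_le x) u).hasSum.sub (summable_phi (abs_bb_le y) u).hasSum
    refine h1.unique ?_
    refine h2.congr_fun ?_ |> fun h' => h'
    intro n
    rw [← mul_sub, Hn_cob]
    simp only [hc]
    ring

/-- the torus -/
abbrev X2 : Type := Fin 2 → TT

/-- the skew product -/
noncomputable def Tm (x : ℕ → ℝ) (z : X2) : X2 := ![z 0 + (al : ℝ), z 1 + ((Ph x (z 0) : ℝ) : TT)]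

/-- its inverse -/
noncomputable def Ti (x : ℕ → ℝ) (z : X2) : X2 :=
  ![z 0 - (al : ℝ), z 1 - ((Ph x (z 0 - (al : ℝ)) : ℝ) : TT)]

theorem Ti_Tm (x : ℕ → ℝ) (z : X2) : Ti x (Tm x z) = z := by
  funext i
  fin_cases i <;> simp [Ti, Tm]

theorem Tm_Ti (x : ℕ → ℝ) (z : X2) : Tm x (Ti x z) = z := by
  funext i
  fin_cases i <;> simp [Ti, Tm]

/-- Birkhoff sums on the circle -/
noncomputable def Sb (x : ℕ → ℝ) (m : ℕ) (z : TT) : ℝ :=
  ∑ i ∈ Finset.range m, Ph x (z + ((i * al : ℝ) : TT))

theorem iter_Tm (x : ℕ → ℝ) (m : ℕ) (z : X2) :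
    (Tm x)^[m] z = ![z 0 + ((m * al : ℝ) : TT), z 1 + ((Sb x m (z 0) : ℝ) : TT)] := by
  induction m with
  | zero =>
    funext i
    fin_cases i <;> simp [Sb]
  | succ m ih =>
    rw [Function.iterate_succ_apply', ih]
    funext i
    fin_cases i
    · show z 0 + ((m * al : ℝ) : TT) + (al : ℝ) = z 0 + (((m + 1 : ℕ) * al : ℝ) : TT)
      rw [add_assoc, ← AddCircle.coe_add]
      congr 2
      push_cast
      ring
    · simp only [Tm, Sb]
      rw [Finset.sum_range_succ]
      simp [add_assoc]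

theorem Sb_coe (x : ℕ → ℝ) (m : ℕ) (u : ℝ) :
    Sb x m (u : TT) = ∑ i ∈ Finset.range m, phi (bb x) (u + i * al) := by
  unfold Sb
  refine Finset.sum_congr rfl fun i _ => ?_
  rw [← AddCircle.coe_add, Ph_coe]

/-- `cos (2 π q z)` on the circle -/
noncomputable def cs (q : ℕ) (z : TT) : ℝ := (fourier (q : ℤ) z : ℂ).re

theorem cs_coe (q : ℕ) (u : ℝ) : cs q (u : TT) = cos (2 * π * q * u) := by
  unfold cs
  rw [fourier_coe_apply]
  have e : (2 * (π : ℂ) * Complex.I * ((q : ℤ) : ℂ) * (u : ℂ) / ((1 : ℝ) : ℂ)) =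
      ((2 * π * q * u : ℝ) : ℂ) * Complex.I := by
    push_cast; ring
  rw [e, Complex.exp_ofReal_mul_I_re]

theorem Sb_approx (x : ℕ → ℝ) (N : ℕ) (z : TT) :
    |Sb x (mm N) z - bb x N * cs (Q N) z| ≤ 26 / Q N := by
  induction z using QuotientAddGroup.induction_on with
  | H u =>
    rw [Sb_coe, cs_coe]
    exact birkhoff (abs_bb_le x) N u

/-- the times `mm N` are rigidity times for the rotation -/
theorem mm_al (N : ℕ) : ((mm N * al : ℝ) : TT) = ((mm N * tl N : ℝ) : TT) := by
  obtain ⟨z, hz⟩ := mul_al_eq (Q_dvd_mm N)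
  rw [hz, AddCircle.coe_add]
  have : ((z : ℝ) : TT) = 0 := by
    have := AddCircle.coe_eq_zero_iff (1 : ℝ) (x := (z : ℝ))
    rw [this]
    exact ⟨z, by simp⟩
  rw [this, zero_add]

theorem mm_tl_le (N : ℕ) : (mm N : ℝ) * tl N ≤ 2 / Q N := by
  have h3 := tl_le N
  have h4 : (mm N : ℝ) * (Q N) ^ 3 = Q (N + 1) := by exact_mod_cast mm_Q N
  have hq := Qr_pos N
  have hq1 := Qr_pos (N + 1)
  have ht := tl_pos N
  have hm := mmr_pos N
  rw [le_div_iff₀ (by positivity)]
  rw [le_div_iff₀ hq1, ← h4] at h3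
  have h5 : (1 : ℝ) ≤ Q N := by exact_mod_cast Q_pos N
  have h6 : (Q N : ℝ) ≤ (Q N) ^ 3 := by
    calc (Q N : ℝ) = Q N ^ 1 := by ring
      _ ≤ _ := pow_le_pow_right₀ h5 (by norm_num)
  calc (mm N : ℝ) * tl N * Q N ≤ mm N * tl N * Q N ^ 3 := by gcongr
    _ = tl N * (mm N * Q N ^ 3) := by ring
    _ ≤ 2 := h3

end Pool.Agent.Helper80K9.TB
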