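import Pool.Agent.Helper80K9.TB.Seq

/-!
# The cocycles `phi b`, their Birkhoff sums, smoothness, transfer functions
-/

set_option autoImplicit false

open scoped Nat ContDiff
open Real Filter Topology

namespace Pool.Agent.Helper80K9.TB

/-- the transfer function of the scale `n` -/
noncomputable def Hn (n : ℕ) (u : ℝ) : ℝ :=
  sin (2 * π * Q n * u - π * (Q n * al)) / (2 * sin (π * (Q n * al)))

theorem sin_ne (n : ℕ) : sin (π * (Q n * al)) ≠ 0 := by
  have h := sn_pos n
  unfold sn at h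
  exact abs_pos.1 h

theorem Hn_cob (n : ℕ) (u : ℝ) : Hn n (u + al) - Hn n u = cos (2 * π * Q n * u) := by
  unfold Hn
  have h := sin_ne n
  have e1 : 2 * π * Q n * (u + al) - π * (Q n * al) = 2 * π * Q n * u + π * (Q n * al) := by ring
  rw [e1, sin_add, sin_sub, ← sub_div, div_eq_iff (mul_ne_zero two_ne_zero h)]
  ring

theorem abs_Hn_le (n : ℕ) (u : ℝ) : |Hn n u| ≤ 1 / (2 * sn n) := by
  unfold Hn
  rw [abs_div, abs_mul, abs_two]
  exact div_le_div_of_nonneg_right (abs_sin_le_one _) (by have := sn_pos n; positivity)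

theorem abs_sin_sub_sin_le (a b : ℝ) : |sin a - sin b| ≤ |a - b| := by
  rw [sin_sub_sin]
  have h1 : |sin ((a - b) / 2)| ≤ |(a - b) / 2| := abs_sin_le_abs
  have h2 := abs_cos_le_one ((a + b) / 2)
  rw [abs_mul, abs_mul, abs_two]
  rw [abs_div, abs_two] at h1
  have h3 := abs_nonneg (sin ((a - b) / 2))
  nlinarith [abs_nonneg (cos ((a + b) / 2))]

theorem abs_cos_sub_cos_le (a b : ℝ) : |cos a - cos b| ≤ |a - b| := by
  have h := abs_sin_sub_sin_le (a + π / 2) (b + π / 2)
  rw [sin_add_pi_div_two, sin_add_pi_div_two] at h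
  have e : a + π / 2 - (b + π / 2) = a - b := by ring
  rwa [e] at h

theorem Hn_lip (n : ℕ) (u t : ℝ) : |Hn n (u + t) - Hn n u| ≤ π * (Q (n + 1) / 2) * |t| := by
  unfold Hn
  rw [← sub_div, abs_div, abs_mul, abs_two]
  have h1 := abs_sin_sub_sin_le (2 * π * Q n * (u + t) - π * (Q n * al))
    (2 * π * Q n * u - π * (Q n * al))
  have e : 2 * π * Q n * (u + t) - π * (Q n * al) - (2 * π * Q n * u - π * (Q n * al)) =
      (2 * π * Q n) * t := by ring
  rw [e, abs_mul, abs_of_nonneg (by have := Qr_pos n; positivity : (0 : ℝ) ≤ 2 * π * Q n)] at h1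
  have hs := sn_pos n
  change _ / (2 * sn n) ≤ _
  rw [div_le_iff₀ (by positivity)]
  refine h1.trans ?_
  have h2 := inv_sn_le n
  rw [div_le_iff₀ hs] at h2
  have h3 : 0 ≤ 2 * π * |t| := by positivity
  nlinarith [mul_le_mul_of_nonneg_left h2 h3]

theorem Hn_int (n : ℕ) (u : ℝ) (z : ℤ) : Hn n (u + z) = Hn n u := by
  unfold Hn
  have e : 2 * π * Q n * (u + z) - π * (Q n * al) =
      2 * π * Q n * u - π * (Q n * al) + ((Q n * z : ℤ) : ℝ) * (2 * π) := by push_cast; ring
  rw [e, sin_add_int_mul_two_pi]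

theorem cos_int (n : ℕ) (u : ℝ) (z : ℤ) : cos (2 * π * Q n * (u + z)) = cos (2 * π * Q n * u) := by
  have e : 2 * π * Q n * (u + z) = 2 * π * Q n * u + ((Q n * z : ℤ) : ℝ) * (2 * π) := by
    push_cast; ring
  rw [e, cos_add_int_mul_two_pi]

theorem tele (n m : ℕ) (u : ℝ) :
    ∑ i ∈ Finset.range m, cos (2 * π * Q n * (u + i * al)) = Hn n (u + m * al) - Hn n u := by
  induction m with
  | zero => simp
  | succ m ih =>
    rw [Finset.sum_range_succ, ih, ← Hn_cob]
    push_cast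
    rw [show u + (m + 1) * al = u + m * al + al by ring]
    ring

/-- the cocycle -/
noncomputable def phi (b : ℕ → ℝ) (u : ℝ) : ℝ := ∑' n, b n / mm n * cos (2 * π * Q n * u)

theorem inv_mm_le (n : ℕ) : (1 : ℝ) / mm n ≤ (1 / 2) ^ n :=
  (one_div_le_one_div_of_le (Qr_pos n) (by exact_mod_cast Q_le_mm n)).trans (inv_Q_le n)

theorem term_le {b : ℕ → ℝ} (hb : ∀ n, |b n| ≤ 1) (n : ℕ) (u : ℝ) :
    |b n / mm n * cos (2 * π * Q n * u)| ≤ (1 / 2) ^ n := by
  rw [abs_mul, abs_div, abs_of_pos (mmr_pos n)]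
  have h1 : |b n| / mm n ≤ 1 / mm n := div_le_div_of_nonneg_right (hb n) (mmr_pos n).le
  have h2 := abs_cos_le_one (2 * π * Q n * u)
  have h3 := inv_mm_le n
  have h4 : 0 ≤ |b n| / mm n := by have := mmr_pos n; positivity
  nlinarith [abs_nonneg (cos (2 * π * Q n * u))]

theorem summable_half : Summable fun n : ℕ => ((1 : ℝ) / 2) ^ n :=
  summable_geometric_of_lt_one (by norm_num) (by norm_num)

theorem summable_phi {b : ℕ → ℝ} (hb : ∀ n, |b n| ≤ 1) (u : ℝ) :
    Summable fun n => b n / mm n * cos (2 * π * Q n * u) :=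
  Summable.of_norm_bounded summable_half (fun n => by rw [norm_eq_abs]; exact term_le hb n u)

theorem phi_int (b : ℕ → ℝ) (u : ℝ) (z : ℤ) : phi b (u + z) = phi b u := by
  unfold phi
  simp only [cos_int]

theorem sum_phi {b : ℕ → ℝ} (hb : ∀ n, |b n| ≤ 1) (m : ℕ) (u : ℝ) :
    HasSum (fun n => b n / mm n * (Hn n (u + m * al) - Hn n u))
      (∑ i ∈ Finset.range m, phi b (u + i * al)) := by
  have h : HasSum (fun n => ∑ i ∈ Finset.range m, b n / mm n * cos (2 * π * Q n * (u + i * al)))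
      (∑ i ∈ Finset.range m, phi b (u + i * al)) :=
    hasSum_sum fun i _ => (summable_phi hb (u + i * al)).hasSum
  refine h.congr_fun ?_ |> fun h' => h'
  intro n
  rw [← tele, Finset.mul_sum]

theorem key_lt {n N : ℕ} (h : n < N) (u : ℝ) :
    |Hn n (u + mm N * al) - Hn n u| ≤ 4 * ((1 / 2) ^ n / Q N) := by
  obtain ⟨z, hz⟩ := mul_al_eq (Q_dvd_mm N)
  have h1 : Hn n (u + mm N * al) = Hn n (u + mm N * tl N) := by
    rw [hz, show u + (z + mm N * tl N) = u + mm N * tl N + z by ring, Hn_int]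
  rw [h1]
  refine (Hn_lip n u _).trans ?_
  have ht := tl_pos N
  have hm := mmr_pos N
  have hq := Qr_pos N
  have hq1 := Qr_pos (N + 1)
  rw [abs_of_pos (by positivity)]
  have h2 : (mm N : ℝ) * tl N ≤ 2 / (Q N) ^ 3 := by
    have h3 := tl_le N
    have h4 : (mm N : ℝ) * (Q N) ^ 3 = Q (N + 1) := by exact_mod_cast mm_Q N
    rw [le_div_iff₀ (by positivity)]
    rw [le_div_iff₀ hq1] at h3
    calc (mm N : ℝ) * tl N * (Q N) ^ 3 = tl N * (mm N * (Q N) ^ 3) := by ring
      _ = tl N * Q (N + 1) := by rw [h4]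
      _ ≤ 2 := h3
  have h5 : (Q (n + 1) : ℝ) ≤ Q N := by exact_mod_cast Q_mono h
  have h6 : (1 : ℝ) / Q N ≤ (1 / 2) ^ n :=
    (inv_Q_le N).trans (pow_le_pow_of_le_one (by norm_num) (by norm_num) h.le)
  have h0 : 0 < (Q (n + 1) : ℝ) := Qr_pos _
  calc π * (Q (n + 1) / 2) * (mm N * tl N) ≤ π * (Q N / 2) * (2 / (Q N) ^ 3) := by
        gcongr
    _ = π * (1 / Q N * (1 / Q N)) := by field_simp
    _ ≤ 4 * ((1 / 2) ^ n * (1 / Q N)) := by
        have : π ≤ 4 := pi_le_four
        gcongr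
    _ = _ := by ring

theorem key_eq (N : ℕ) (u : ℝ) :
    |(Hn N (u + mm N * al) - Hn N u) / mm N - cos (2 * π * Q N * u)| ≤
      13 * ((1 / 2) ^ N / Q N) := by
  have hm := mmr_pos N
  have hq := Qr_pos N
  have hq1 := Qr_pos (N + 1)
  have hr := rr_pos N
  rw [← tele]
  have h1 : ∀ i ∈ Finset.range (mm N),
      |cos (2 * π * Q N * (u + i * al)) - cos (2 * π * Q N * u)| ≤ 2 * π * mm N * rr N := by
    intro i hi
    obtain ⟨z, hz⟩ := Q_al N
    have e : 2 * π * Q N * (u + i * al) =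
        2 * π * Q N * u + 2 * π * i * rr N + ((i * z : ℤ) : ℝ) * (2 * π) := by
      push_cast
      linear_combination (2 * π * i) * hz
    rw [e, cos_add_int_mul_two_pi]
    refine (abs_cos_sub_cos_le _ _).trans ?_
    have e2 : 2 * π * Q N * u + 2 * π * i * rr N - 2 * π * Q N * u = 2 * π * i * rr N := by ring
    rw [e2, abs_of_nonneg (by positivity)]
    have h3 : (i : ℝ) ≤ mm N := by exact_mod_cast (Finset.mem_range.1 hi).le
    gcongr
  have h2 : |∑ i ∈ Finset.range (mm N), (cos (2 * π * Q N * (u + i * al)) - cos (2 * π * Q N * u))|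
      ≤ mm N * (2 * π * mm N * rr N) := by
    refine (Finset.abs_sum_le_sum_abs _ _).trans ((Finset.sum_le_sum h1).trans ?_)
    simp
  have e3 : (∑ i ∈ Finset.range (mm N), cos (2 * π * Q N * (u + i * al))) / mm N -
      cos (2 * π * Q N * u) =
      (∑ i ∈ Finset.range (mm N), (cos (2 * π * Q N * (u + i * al)) - cos (2 * π * Q N * u))) /
        mm N := by
    rw [Finset.sum_sub_distrib, sub_div]
    simp only [Finset.sum_const, Finset.card_range, nsmul_eq_mul]
    rw [mul_div_cancel_left₀ _ hm.ne']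
  rw [e3, abs_div, abs_of_pos hm, div_le_iff₀ hm]
  refine h2.trans ?_
  have h4 : (mm N : ℝ) * rr N ≤ 2 / (Q N) ^ 2 := by
    have h3 := rr_le N
    have h5 : (mm N : ℝ) * (Q N) ^ 3 = Q (N + 1) := by exact_mod_cast mm_Q N
    rw [le_div_iff₀ (by positivity)]
    rw [le_div_iff₀ hq1, ← h5] at h3
    have h6 : (mm N : ℝ) * rr N * (Q N) ^ 2 * Q N ≤ 2 * Q N := by
      calc (mm N : ℝ) * rr N * (Q N) ^ 2 * Q N = rr N * (mm N * (Q N) ^ 3) := by ring
        _ ≤ _ := h3
    exact le_of_mul_le_mul_right h6 hq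
  have h6 : (1 : ℝ) / Q N ≤ (1 / 2) ^ N := inv_Q_le N
  have hpi : 4 * π ≤ 13 := by have := pi_lt_d2; linarith
  calc (mm N : ℝ) * (2 * π * mm N * rr N) = 2 * π * (mm N * rr N) * mm N := by ring
    _ ≤ 2 * π * (2 / (Q N) ^ 2) * mm N := by gcongr
    _ = 4 * π * (1 / Q N * (1 / Q N)) * mm N := by field_simp; ring
    _ ≤ 13 * ((1 / 2) ^ N * (1 / Q N)) * mm N := by gcongr
    _ = _ := by ring

theorem key_gt {n N : ℕ} (h : N < n) (u : ℝ) :
    |(Hn n (u + mm N * al) - Hn n u) / mm n| ≤ (1 / 2) ^ n / Q N := by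
  rw [← tele, abs_div, abs_of_pos (mmr_pos n)]
  have h1 : |∑ i ∈ Finset.range (mm N), cos (2 * π * Q n * (u + i * al))| ≤ mm N := by
    refine (Finset.abs_sum_le_sum_abs _ _).trans ?_
    refine (Finset.sum_le_sum fun i _ => abs_cos_le_one _).trans ?_
    simp
  have h2 : (mm N : ℝ) * Q n ≤ mm n := by exact_mod_cast mm_gap h
  have h3 : (2 : ℝ) ^ n * Q N ≤ Q n := by exact_mod_cast Q_gap h
  have hn := Qr_pos n
  have hN := Qr_pos N
  have hm := mmr_pos n
  have hm' := mmr_pos N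
  calc |∑ i ∈ Finset.range (mm N), cos (2 * π * Q n * (u + i * al))| / mm n ≤ mm N / mm n := by
        gcongr
    _ ≤ 1 / Q n := by
        rw [div_le_div_iff₀ hm hn, one_mul]
        exact h2
    _ ≤ 1 / (2 ^ n * Q N) := one_div_le_one_div_of_le (by positivity) h3
    _ = _ := by rw [one_div_pow]; field_simp

/-- the Birkhoff sum of `phi b` at the time `mm N` is `b N cos (2 π Q_N u)` up to `26 / Q N` -/
theorem birkhoff {b : ℕ → ℝ} (hb : ∀ n, |b n| ≤ 1) (N : ℕ) (u : ℝ) :
    |∑ i ∈ Finset.range (mm N), phi b (u + i * al) - b N * cos (2 * π * Q N * u)| ≤ 26 / Q N := by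
  have h1 := sum_phi hb (mm N) u
  have h2 : HasSum (fun n => if n = N then b N * cos (2 * π * Q N * u) else 0)
      (b N * cos (2 * π * Q N * u)) := by
    have := hasSum_ite_eq N (b N * cos (2 * π * Q N * u))
    exact this
  have h3 := h1.sub h2
  have hq := Qr_pos N
  have hbd : ∀ n, ‖b n / mm n * (Hn n (u + mm N * al) - Hn n u) -
      (if n = N then b N * cos (2 * π * Q N * u) else 0)‖ ≤ 13 / Q N * (1 / 2) ^ n := by
    intro n
    rw [norm_eq_abs]
    have hm := mmr_pos n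
    have hbn := hb n
    rcases lt_trichotomy n N with h | h | h
    · rw [if_neg h.ne, sub_zero, abs_mul, abs_div, abs_of_pos hm]
      have h4 := key_lt h u
      have h5 : |b n| / mm n ≤ 1 := by
        rw [div_le_one hm]
        have : (1 : ℝ) ≤ mm n := by exact_mod_cast mm_pos n
        linarith
      have h6 : (0 : ℝ) ≤ (1 / 2) ^ n / Q N := by positivity
      calc |b n| / mm n * |Hn n (u + mm N * al) - Hn n u|
          ≤ 1 * (4 * ((1 / 2) ^ n / Q N)) := by gcongr
        _ ≤ 13 * ((1 / 2) ^ n / Q N) := by linarith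
        _ = _ := by ring
    · subst h
      rw [if_pos rfl]
      have e : b n / mm n * (Hn n (u + mm n * al) - Hn n u) - b n * cos (2 * π * Q n * u) =
          b n * ((Hn n (u + mm n * al) - Hn n u) / mm n - cos (2 * π * Q n * u)) := by ring
      rw [e, abs_mul]
      have h4 := key_eq n u
      have h6 : (0 : ℝ) ≤ (1 / 2) ^ n / Q n := by positivity
      calc |b n| * |(Hn n (u + mm n * al) - Hn n u) / mm n - cos (2 * π * Q n * u)|
          ≤ 1 * (13 * ((1 / 2) ^ n / Q n)) := by gcongr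
        _ = _ := by ring
    · rw [if_neg h.ne', sub_zero]
      have e : b n / mm n * (Hn n (u + mm N * al) - Hn n u) =
          b n * ((Hn n (u + mm N * al) - Hn n u) / mm n) := by ring
      rw [e, abs_mul]
      have h4 := key_gt h u
      have h6 : (0 : ℝ) ≤ (1 / 2) ^ n / Q N := by positivity
      calc |b n| * |(Hn n (u + mm N * al) - Hn n u) / mm n| ≤ 1 * ((1 / 2) ^ n / Q N) := by gcongr
        _ ≤ 13 * ((1 / 2) ^ n / Q N) := by linarith
        _ = _ := by ring
  have h4 : HasSum (fun n : ℕ => 13 / Q N * ((1 : ℝ) / 2) ^ n) (13 / Q N * 2) := by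
    have := (hasSum_geometric_two).mul_left (13 / (Q N : ℝ))
    exact this
  have h5 := tsum_of_norm_bounded h4 hbd
  rw [h3.tsum_eq, norm_eq_abs] at h5
  refine h5.trans (le_of_eq ?_)
  ring

/-! ### smoothness -/

theorem iter_cos (k : ℕ) (c a u : ℝ) (ha : 0 ≤ a) :
    ‖iteratedFDeriv ℝ k (fun u : ℝ => c * cos (a * u)) u‖ ≤ |c| * a ^ k := by
  rw [norm_iteratedFDeriv_eq_norm_iteratedDeriv]
  have h1 : iteratedDeriv k (fun u : ℝ => c * cos (a * u)) u =
      c * iteratedDeriv k (fun u : ℝ => cos (a * u)) u := by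
    have := iteratedDeriv_const_mul (n := k) (x := u) (f := fun u : ℝ => cos (a * u)) c
      ((contDiff_cos.comp (contDiff_const.mul contDiff_id)).contDiffAt)
    exact this
  rw [h1, congrFun (iteratedDeriv_comp_const_mul (n := k) (f := cos) contDiff_cos a) u, norm_mul,
    norm_mul, norm_pow, norm_eq_abs, norm_eq_abs, norm_eq_abs, abs_of_nonneg ha]
  have := abs_iteratedDeriv_cos_le_one k (a * u)
  calc |c| * (a ^ k * |iteratedDeriv k cos (a * u)|) ≤ |c| * (a ^ k * 1) := by gcongr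
    _ = _ := by ring

theorem summable_pow (k : ℕ) : Summable fun n : ℕ => (2 * π * Q n) ^ k / (mm n : ℝ) := by
  have h : Summable fun n : ℕ => (2 * π) ^ k * ((1 : ℝ) / Q n) := summable_inv_Q.mul_left _
  refine Summable.of_norm_bounded_eventually_nat h ?_
  filter_upwards [eventually_ge_atTop k] with n hn
  have hq := Qr_pos n
  have hm := mmr_pos n
  rw [norm_eq_abs, abs_of_nonneg (by positivity), mul_pow]
  have e : (mm n : ℝ) = (Q n : ℝ) ^ n * Q n := by
    unfold mm; push_cast; ring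
  have h1 : (Q n : ℝ) ^ k ≤ (Q n : ℝ) ^ n :=
    pow_le_pow_right₀ (by exact_mod_cast Q_pos n) hn
  rw [e, mul_div_assoc]
  refine mul_le_mul_of_nonneg_left ?_ (by positivity)
  rw [div_le_div_iff₀ (by positivity) hq, one_mul]
  exact mul_le_mul_of_nonneg_right h1 hq.le

theorem contDiff_phi {b : ℕ → ℝ} (hb : ∀ n, |b n| ≤ 1) : ContDiff ℝ ∞ (phi b) := by
  unfold phi
  refine contDiff_tsum (v := fun k n => (2 * π * Q n) ^ k / (mm n : ℝ)) ?_ ?_ ?_
  · intro n
    exact contDiff_const.mul (contDiff_cos.comp (contDiff_const.mul contDiff_id))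
  · intro k _
    exact summable_pow k
  · intro k n u _
    have hq := Qr_pos n
    refine (iter_cos k (b n / mm n) (2 * π * Q n) u (by positivity)).trans ?_
    rw [abs_div, abs_of_pos (mmr_pos n), div_mul_eq_mul_div]
    have h1 : |b n| * (2 * π * Q n) ^ k ≤ 1 * (2 * π * Q n) ^ k :=
      mul_le_mul_of_nonneg_right (hb n) (by positivity)
    rw [one_mul] at h1
    exact div_le_div_of_nonneg_right h1 (mmr_pos n).le

end Pool.Agent.Helper80K9.TB
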