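import Mathlib

/-!
# The sequences: denominators `Q n`, times `mm n`, the Liouville rotation number `al`
-/

set_option autoImplicit false

open scoped Nat
open Real

namespace Pool.Agent.Helper80K9.TB

/-- denominators -/
def Q (n : ℕ) : ℕ := 2 ^ (n + 3)!

/-- times -/
def mm (n : ℕ) : ℕ := Q n ^ (n + 1)

theorem Q_succ (n : ℕ) : Q (n + 1) = Q n ^ (n + 4) := by
  unfold Q
  rw [← pow_mul, show n + 1 + 3 = (n + 3) + 1 by ring, Nat.factorial_succ, mul_comm]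

theorem Q_ge (n : ℕ) : 8 * 2 ^ n ≤ Q n := by
  unfold Q
  calc 8 * 2 ^ n = 2 ^ (n + 3) := by ring
    _ ≤ 2 ^ (n + 3)! := Nat.pow_le_pow_right (by norm_num) (Nat.self_le_factorial _)

theorem Q_pos (n : ℕ) : 0 < Q n := by unfold Q; positivity

theorem two_le_Q (n : ℕ) : 8 ≤ Q n :=
  le_trans (by have := Nat.one_le_two_pow (n := n); omega) (Q_ge n)

theorem Q_sq_le (n : ℕ) : Q n * Q n ≤ Q (n + 1) := by
  rw [Q_succ, ← pow_two]
  exact Nat.pow_le_pow_right (Q_pos n) (by omega)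

theorem Q_mono_succ (n : ℕ) : 2 * Q n ≤ Q (n + 1) :=
  le_trans (Nat.mul_le_mul_right _ (le_trans (by norm_num) (two_le_Q n))) (Q_sq_le n)

theorem Q_mono : Monotone Q := monotone_nat_of_le_succ fun n => by
  have := Q_mono_succ n; omega

theorem Q_dvd_succ (n : ℕ) : Q n ∣ Q (n + 1) := by
  rw [Q_succ]; exact dvd_pow_self _ (by omega)

theorem Q_dvd {n k : ℕ} (h : n ≤ k) : Q n ∣ Q k := by
  induction h with
  | refl => exact dvd_rfl
  | step _ ih => exact ih.trans (Q_dvd_succ _)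

theorem mm_pos (n : ℕ) : 0 < mm n := pow_pos (Q_pos n) _

theorem Q_dvd_mm (n : ℕ) : Q n ∣ mm n := dvd_pow_self _ (by omega)

theorem Q_le_mm (n : ℕ) : Q n ≤ mm n := Nat.le_of_dvd (mm_pos n) (Q_dvd_mm n)

/-- `Q_n * 2^n ≤ Q_k` for `n < k`, in the form `2 ^ k * Q n ≤ Q k`. -/
theorem Q_gap {n k : ℕ} (h : n < k) : 2 ^ k * Q n ≤ Q k := by
  obtain ⟨j, rfl⟩ : ∃ j, k = j + 1 := ⟨k - 1, by omega⟩
  calc 2 ^ (j + 1) * Q n ≤ Q j * Q j := by
        refine Nat.mul_le_mul ?_ (Q_mono (by omega))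
        calc 2 ^ (j + 1) ≤ 8 * 2 ^ j := by rw [pow_succ]; omega
          _ ≤ Q j := Q_ge j
    _ ≤ Q (j + 1) := Q_sq_le j

/-- `mm N * Q n ≤ mm n` for `N < n`. -/
theorem mm_gap {N n : ℕ} (h : N < n) : mm N * Q n ≤ mm n := by
  obtain ⟨j, rfl⟩ : ∃ j, n = j + 1 := ⟨n - 1, by omega⟩
  have h1 : mm N ≤ Q (j + 1) := by
    calc mm N = Q N ^ (N + 1) := rfl
      _ ≤ Q j ^ (N + 1) := Nat.pow_le_pow_left (Q_mono (by omega)) _
      _ ≤ Q j ^ (j + 4) := Nat.pow_le_pow_right (Q_pos j) (by omega)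
      _ = Q (j + 1) := (Q_succ j).symm
  calc mm N * Q (j + 1) ≤ Q (j + 1) * Q (j + 1) := Nat.mul_le_mul_right _ h1
    _ = Q (j + 1) ^ 2 := by ring
    _ ≤ Q (j + 1) ^ (j + 1 + 1) := Nat.pow_le_pow_right (Q_pos _) (by omega)
    _ = mm (j + 1) := rfl

/-- `mm N * Q N ^ 3 = Q (N+1)`. -/
theorem mm_Q (N : ℕ) : mm N * Q N ^ 3 = Q (N + 1) := by
  rw [Q_succ]; unfold mm; ring

theorem Qr_pos (n : ℕ) : (0 : ℝ) < Q n := by exact_mod_cast Q_pos n

theorem mmr_pos (n : ℕ) : (0 : ℝ) < mm n := by exact_mod_cast mm_pos n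

theorem inv_Q_le (n : ℕ) : (1 : ℝ) / Q n ≤ (1 / 2) ^ n := by
  have h : ((2 : ℝ) ^ n) ≤ Q n := by
    have h1 := Q_ge n
    have h2 : 2 ^ n ≤ Q n := by omega
    exact_mod_cast h2
  rw [one_div, one_div, inv_pow]
  exact inv_anti₀ (by positivity) h

theorem summable_inv_Q : Summable fun n => (1 : ℝ) / Q n :=
  Summable.of_nonneg_of_le (fun n => by positivity) inv_Q_le
    (summable_geometric_of_lt_one (by norm_num) (by norm_num))

/-- the rotation number -/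
noncomputable def al : ℝ := ∑' k, (1 : ℝ) / Q k

/-- the tail -/
noncomputable def tl (n : ℕ) : ℝ := ∑' k, (1 : ℝ) / Q (k + (n + 1))

theorem al_eq (n : ℕ) : al = ∑ k ∈ Finset.range (n + 1), (1 : ℝ) / Q k + tl n :=
  (summable_inv_Q.sum_add_tsum_nat_add (n + 1)).symm

theorem Q_tail (n k : ℕ) : 2 ^ k * Q n ≤ Q (k + n) := by
  induction k with
  | zero => simp
  | succ k ih =>
    have := Q_mono_succ (k + n)
    rw [show k + 1 + n = k + n + 1 by ring]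
    calc 2 ^ (k + 1) * Q n = 2 * (2 ^ k * Q n) := by ring
      _ ≤ 2 * Q (k + n) := Nat.mul_le_mul_left _ ih
      _ ≤ _ := this

theorem tl_term_le (n k : ℕ) : (1 : ℝ) / Q (k + (n + 1)) ≤ (1 / 2) ^ k * (1 / Q (n + 1)) := by
  have h : ((2 : ℝ) ^ k * Q (n + 1)) ≤ Q (k + (n + 1)) := by
    exact_mod_cast Q_tail (n + 1) k
  rw [one_div_pow, one_div_mul_one_div]
  exact one_div_le_one_div_of_le (by have := Qr_pos (n + 1); positivity) h

theorem summable_tl (n : ℕ) : Summable fun k => (1 : ℝ) / Q (k + (n + 1)) :=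
  (summable_nat_add_iff (n + 1)).2 summable_inv_Q

theorem tl_le (n : ℕ) : tl n ≤ 2 / Q (n + 1) := by
  have h1 : Summable fun k : ℕ => ((1 : ℝ) / 2) ^ k * (1 / Q (n + 1)) :=
    (summable_geometric_of_lt_one (by norm_num) (by norm_num)).mul_right _
  calc tl n ≤ ∑' k : ℕ, ((1 : ℝ) / 2) ^ k * (1 / Q (n + 1)) :=
        (summable_tl n).tsum_le_tsum (tl_term_le n) h1
    _ = 2 / Q (n + 1) := by
        rw [tsum_mul_right, tsum_geometric_of_lt_one (by norm_num) (by norm_num)]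
        ring

theorem le_tl (n : ℕ) : 1 / Q (n + 1) ≤ tl n := by
  have h := (summable_tl n).le_tsum 0 (fun j _ => by positivity)
  rw [zero_add] at h
  exact h

theorem tl_pos (n : ℕ) : 0 < tl n := lt_of_lt_of_le (by have := Qr_pos (n + 1); positivity) (le_tl n)

/-- `j * al` is an integer plus `j * tl n` if `Q n ∣ j`. -/
theorem mul_al_eq {n j : ℕ} (h : Q n ∣ j) : ∃ z : ℤ, (j : ℝ) * al = z + j * tl n := by
  refine ⟨((∑ k ∈ Finset.range (n + 1), j / Q k : ℕ) : ℤ), ?_⟩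
  rw [al_eq n, mul_add, Finset.mul_sum]
  congr 1
  push_cast
  refine Finset.sum_congr rfl fun k hk => ?_
  have hk' : Q k ∣ j := (Q_dvd (Nat.lt_succ_iff.1 (Finset.mem_range.1 hk))).trans h
  obtain ⟨c, hc⟩ := hk'
  have h0 : (Q k : ℝ) ≠ 0 := (Qr_pos k).ne'
  have h1 : (j / Q k : ℕ) = c := by rw [hc, Nat.mul_div_cancel_left _ (Q_pos k)]
  have h2 : ((j : ℤ) / (Q k : ℤ)) = (c : ℤ) := by exact_mod_cast h1
  rw [h2, hc]
  push_cast
  field_simp

/-- `r n = Q n * tl n`, the fractional part of `Q n * al` -/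
noncomputable def rr (n : ℕ) : ℝ := Q n * tl n

theorem rr_pos (n : ℕ) : 0 < rr n := mul_pos (Qr_pos n) (tl_pos n)

theorem rr_ge (n : ℕ) : (Q n : ℝ) / Q (n + 1) ≤ rr n := by
  rw [div_eq_mul_one_div]
  exact mul_le_mul_of_nonneg_left (le_tl n) (Qr_pos n).le

theorem rr_le (n : ℕ) : rr n ≤ 2 * Q n / Q (n + 1) := by
  unfold rr
  calc (Q n : ℝ) * tl n ≤ Q n * (2 / Q (n + 1)) := mul_le_mul_of_nonneg_left (tl_le n) (Qr_pos n).le
    _ = _ := by ring

theorem rr_le_half (n : ℕ) : rr n ≤ 1 / 2 := by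
  refine (rr_le n).trans ?_
  rw [div_le_iff₀ (Qr_pos _)]
  have h : (Q n : ℝ) * Q n ≤ Q (n + 1) := by exact_mod_cast Q_sq_le n
  have h2 : (8 : ℝ) ≤ Q n := by exact_mod_cast two_le_Q n
  nlinarith

theorem Q_al (n : ℕ) : ∃ z : ℤ, (Q n : ℝ) * al = z + rr n := mul_al_eq dvd_rfl

theorem abs_sin_add_int (x : ℝ) (z : ℤ) : |sin (π * (z + x))| = |sin (π * x)| := by
  rw [mul_add, add_comm, mul_comm π (z : ℝ), Real.sin_add_int_mul_pi, abs_mul]
  rcases Int.even_or_odd z with h | h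
  · rw [h.neg_one_zpow]; simp
  · rw [h.neg_one_zpow]; simp

/-- `|sin (π Q_n al)|` -/
noncomputable def sn (n : ℕ) : ℝ := |sin (π * (Q n * al))|

theorem sn_ge (n : ℕ) : 2 * rr n ≤ sn n := by
  obtain ⟨z, hz⟩ := Q_al n
  unfold sn
  rw [hz, abs_sin_add_int]
  have h1 : 2 / π * (π * rr n) ≤ sin (π * rr n) :=
    Real.mul_le_sin (by have := rr_pos n; positivity)
      (by have := rr_le_half n; nlinarith [pi_pos])
  have h2 : 2 / π * (π * rr n) = 2 * rr n := by field_simp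
  rw [h2] at h1
  exact h1.trans (le_abs_self _)

theorem sn_pos (n : ℕ) : 0 < sn n := lt_of_lt_of_le (by have := rr_pos n; linarith) (sn_ge n)

theorem sn_le_one (n : ℕ) : sn n ≤ 1 := abs_sin_le_one _

theorem inv_sn_le (n : ℕ) : Q n / (sn n) ≤ Q (n + 1) / 2 := by
  have h1 := sn_ge n
  have h2 := rr_ge n
  have h3 := Qr_pos n
  have h4 := Qr_pos (n + 1)
  rw [div_le_iff₀ (sn_pos n)]
  have h5 : (Q n : ℝ) / Q (n + 1) * Q (n + 1) = Q n := by field_simp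
  nlinarith

end Pool.Agent.Helper80K9.TB
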