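import Pool.Agent.Helper449.RC.Torus2
import Pool.Agent.Helper80K9.TB.Iso

/-!
# The torus as a manifold, its smooth volume, and the skew products as diffeomorphisms
-/

set_option autoImplicit false

open scoped ContDiff Manifold
open Real Filter Topology MeasureTheory Set
open Pool.Agent.Helper449.RC
open Pool.Agent.Helper206.Cover (E2)

namespace Pool.Agent.Helper80K9.TB

instance : MeasurableSpace T2 := inferInstanceAs (MeasurableSpace X2)
instance : BorelSpace T2 := inferInstanceAs (BorelSpace X2)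

/-- the volume of the torus -/
noncomputable def vol : Measure T2 := (volume : Measure X2)

/-! ### the volume in the charts -/

theorem toT2_cont : Continuous toT2 := contMDiff_toT2.continuous

theorem mp_toT2 (a : E2) : MeasurePreserving toT2 ((volume : Measure E2).restrict (cubeT2 a).source)
    vol := by
  have h1 : MeasurePreserving (fun (v : Fin 2 → ℝ) (i : Fin 2) => ((v i : ℝ) : TT))
      (Measure.pi fun i : Fin 2 => (volume : Measure ℝ).restrict
        (Ioc (a i - 1 / 2) (a i - 1 / 2 + 1))) (volume : Measure X2) :=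
    measurePreserving_pi _ _ fun i => AddCircle.measurePreserving_mk 1 (a i - 1 / 2)
  have h2 : (Measure.pi fun i : Fin 2 => (volume : Measure ℝ).restrict
        (Ioc (a i - 1 / 2) (a i - 1 / 2 + 1))) =
      (volume : Measure (Fin 2 → ℝ)).restrict
        (Set.univ.pi fun i => Ioo (a i - 1 / 2) (a i - 1 / 2 + 1)) := by
    rw [volume_pi, Measure.restrict_pi_pi]
    congr 1
    funext i
    exact Measure.restrict_congr_set Ioo_ae_eq_Ioc.symm
  rw [h2] at h1
  have h3 : MeasurePreserving (fun v : E2 => (v : Fin 2 → ℝ)) (volume : Measure E2)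
      (volume : Measure (Fin 2 → ℝ)) := PiLp.volume_preserving_ofLp (Fin 2)
  have h4 := h3.restrict_preimage (s := Set.univ.pi fun i => Ioo (a i - 1 / 2) (a i - 1 / 2 + 1))
    (MeasurableSet.univ_pi fun i => measurableSet_Ioo)
  have h5 := h1.comp h4
  have e : ((fun v : E2 => (v : Fin 2 → ℝ)) ⁻¹'
      (Set.univ.pi fun i => Ioo (a i - 1 / 2) (a i - 1 / 2 + 1))) = (cubeT2 a).source := by
    rw [cubeT2_source]
    ext v
    simp only [mem_preimage, Set.mem_pi, mem_univ, forall_true_left, mem_Ioo, mem_ofPred_eq]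
  rw [e] at h5
  exact h5

theorem map_chart (a : E2) : Measure.map ((cubeT2 a).symm) (vol.restrict (cubeT2 a).target) =
    (volume : Measure E2).restrict (cubeT2 a).source := by
  set μ := (volume : Measure E2).restrict (cubeT2 a).source with hμ
  have hmp := mp_toT2 a
  have hso : MeasurableSet (cubeT2 a).source := (cubeT2 a).open_source.measurableSet
  have hto : MeasurableSet (cubeT2 a).target := (cubeT2 a).open_target.measurableSet
  have hmem : ∀ᵐ v ∂μ, v ∈ (cubeT2 a).source := ae_restrict_mem hso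
  have h1 : vol.restrict (cubeT2 a).target = Measure.map toT2 μ := by
    rw [← hmp.map_eq, Measure.restrict_map hmp.measurable hto]
    congr 1
    refine Measure.restrict_eq_self_of_ae_mem ?_
    filter_upwards [hmem] with v hv
    exact (cubeT2 a).map_source hv
  have h2 : AEMeasurable ((cubeT2 a).symm) (vol.restrict (cubeT2 a).target) :=
    (cubeT2 a).continuousOn_symm.aemeasurable hto
  rw [h1] at h2 ⊢
  rw [AEMeasurable.map_map_of_aemeasurable h2 hmp.measurable.aemeasurable]
  have h3 : ((cubeT2 a).symm ∘ toT2) =ᵐ[μ] id := by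
    filter_upwards [hmem] with v hv
    exact (cubeT2 a).left_inv hv
  rw [Measure.map_congr h3, Measure.map_id]

/-- The volume of the torus is smooth in the charts. -/
theorem vol_chart (e : OpenPartialHomeomorph T2 E2) (he : e ∈ atlas E2 T2) :
    ∃ ρ : E2 → ℝ, ContDiffOn ℝ ∞ ρ e.target ∧ (∀ y ∈ e.target, 0 < ρ y) ∧
      Measure.map (⇑e) (vol.restrict e.source) =
        (volume.withDensity (fun y => ENNReal.ofReal (ρ y))).restrict e.target := by
  obtain ⟨a, rfl⟩ := he
  refine ⟨fun _ => 1, contDiffOn_const, fun _ _ => one_pos, ?_⟩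
  have h := map_chart a
  have e : (volume : Measure E2).withDensity (fun _ => ENNReal.ofReal 1) = volume := by
    simp only [ENNReal.ofReal_one]
    exact withDensity_one
  rw [e]
  exact h

/-! ### smooth maps of the torus -/

theorem contMDiff_of_lift {f : T2 → T2} {F : E2 → E2} (hF : ContDiff ℝ ∞ F)
    (h : ∀ v, f (toT2 v) = toT2 (F v)) : ContMDiff 𝓘(ℝ, E2) 𝓘(ℝ, E2) ∞ f := by
  intro p
  have h1 : ContMDiffAt 𝓘(ℝ, E2) 𝓘(ℝ, E2) ∞ (chartAt E2 p) p :=
    (contMDiffOn_chart (I := 𝓘(ℝ, E2)) (n := ∞) (x := p)).contMDiffAt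
      ((chartAt E2 p).open_source.mem_nhds (mem_chart_source E2 p))
  have h2 : ContMDiffAt 𝓘(ℝ, E2) 𝓘(ℝ, E2) ∞ (fun q => toT2 (F (chartAt E2 p q))) p :=
    (contMDiff_toT2.contMDiffAt).comp p ((hF.contMDiff.contMDiffAt).comp p h1)
  refine h2.congr_of_eventuallyEq ?_
  filter_upwards [(chartAt E2 p).open_source.mem_nhds (mem_chart_source E2 p)] with q hq
  rw [← h]
  congr 1
  rw [chartAt_T2] at hq ⊢
  exact ((cubeT2 (liftT2 p)).right_inv hq).symm

/-- the skew product as a map of `T2` -/
noncomputable def TmT (x : ℕ → ℝ) : T2 → T2 := Tm x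
/-- its inverse -/
noncomputable def TiT (x : ℕ → ℝ) : T2 → T2 := Ti x

theorem contDiff_pair {f g : E2 → ℝ} (hf : ContDiff ℝ ∞ f) (hg : ContDiff ℝ ∞ g) :
    ContDiff ℝ ∞ (fun v : E2 => (WithLp.toLp 2 ![f v, g v] : E2)) := by
  rw [contDiff_euclidean]
  intro i
  fin_cases i
  · exact hf
  · exact hg

theorem contDiff_coord (i : Fin 2) : ContDiff ℝ ∞ (fun v : E2 => v i) := by
  have h : ContDiff ℝ ∞ (fun v : E2 => v) := contDiff_id
  exact (contDiff_euclidean.1 h) i

theorem smooth_TmT (x : ℕ → ℝ) : ContMDiff 𝓘(ℝ, E2) 𝓘(ℝ, E2) ∞ (TmT x) := by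
  refine contMDiff_of_lift (F := fun v : E2 => WithLp.toLp 2 ![v 0 + al, v 1 + phi (bb x) (v 0)])
    (contDiff_pair ((contDiff_coord 0).add contDiff_const)
      ((contDiff_coord 1).add ((contDiff_phi (abs_bb_le x)).comp (contDiff_coord 0)))) ?_
  intro v
  funext i
  fin_cases i <;> rfl

theorem smooth_TiT (x : ℕ → ℝ) : ContMDiff 𝓘(ℝ, E2) 𝓘(ℝ, E2) ∞ (TiT x) := by
  refine contMDiff_of_lift
    (F := fun v : E2 => WithLp.toLp 2 ![v 0 - al, v 1 - phi (bb x) (v 0 - al)])
    (contDiff_pair ((contDiff_coord 0).sub contDiff_const)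
      ((contDiff_coord 1).sub ((contDiff_phi (abs_bb_le x)).comp
        ((contDiff_coord 0).sub contDiff_const)))) ?_
  intro v
  funext i
  fin_cases i <;> rfl

/-- the skew product as a diffeomorphism -/
noncomputable def df (x : ℕ → ℝ) : Diffeomorph 𝓘(ℝ, E2) 𝓘(ℝ, E2) T2 T2 ∞ where
  toFun := TmT x
  invFun := TiT x
  left_inv z := Ti_Tm x z
  right_inv z := Tm_Ti x z
  contMDiff_toFun := smooth_TmT x
  contMDiff_invFun := smooth_TiT x

theorem df_coe (x : ℕ → ℝ) : (⇑(df x) : T2 → T2) = TmT x := rfl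

/-- the evaluation maps are measurable in the parameter -/
theorem measurable_df (z : T2) : Measurable fun x : ℕ → ℝ => (df x) z := by
  have h : Continuous fun x : ℕ → ℝ => (Tm x z : X2) := by
    refine continuous_pi fun i => ?_
    fin_cases i
    · exact continuous_const
    · exact continuous_const.add ((AddCircle.continuous_mk' (1 : ℝ)).comp (continuous_par _))
  exact h.measurable

end Pool.Agent.Helper80K9.TB
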